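import Pool.Agent.J6H99.NC.Flat

/-!
# First-passage percolation: deviations, the flat bound, the chain inequality
-/

set_option autoImplicit false

open MeasureTheory ProbabilityTheory Filter Topology
open scoped ENNReal

namespace Pool.Agent.J6H99.NC

variable {e : ℕ}

lemma T_abs_le (q : Par) (ω : Om e) (x : V e) : |T q ω 0 x| ≤ q.b * n1 x := by
  rw [abs_of_nonneg (T_nonneg q ω 0 x)]
  simpa using T_le_n1 q ω 0 x

lemma int_T (q : Par) (F : Measure ℝ) [IsProbabilityMeasure F] (x : V e) :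
    Integrable (fun ω => T q ω 0 x) (PM e F) :=
  Integrable.of_bound (measurable_T q 0 x).aestronglyMeasurable (q.b * n1 x)
    (Eventually.of_forall fun ω => T_abs_le q ω x)

lemma int_dev_sq (q : Par) (F : Measure ℝ) [IsProbabilityMeasure F] (x : V e) :
    Integrable (fun ω => (T q ω 0 x - g q F x) ^ 2) (PM e F) := by
  refine Integrable.of_bound
    (((measurable_T q 0 x).sub_const _).pow_const 2).aestronglyMeasurable
    ((q.b * n1 x + |g q F x|) ^ 2) (Eventually.of_forall fun ω => ?_)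
  rw [Real.norm_eq_abs, abs_pow]
  refine pow_le_pow_left₀ (abs_nonneg _) ?_ 2
  exact (abs_sub _ _).trans (add_le_add (T_abs_le q ω x) le_rfl)

/-- Chebyshev -/
theorem cheb (q : Par) (F : Measure ℝ) [IsProbabilityMeasure F] {C : ℝ}
    (hV : ∀ x : V e, ∫ ω, (T q ω 0 x - g q F x) ^ 2 ∂(PM e F) ≤ C * n1 x)
    (x : V e) {t : ℝ} (ht : 0 < t) :
    (PM e F).real {ω | t ≤ |T q ω 0 x - g q F x|} ≤ C * n1 x / t ^ 2 := by
  have h1 := mul_meas_ge_le_integral_of_nonneg (μ := PM e F)
    (f := fun ω => (T q ω 0 x - g q F x) ^ 2) (Eventually.of_forall fun ω => sq_nonneg _)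
    (int_dev_sq q F x) (t ^ 2)
  have h2 : {ω : Om e | t ^ 2 ≤ (T q ω 0 x - g q F x) ^ 2} =
      {ω | t ≤ |T q ω 0 x - g q F x|} := by
    ext ω
    simp only [Set.mem_ofPred_eq]
    rw [← sq_abs (T q ω 0 x - g q F x)]
    constructor
    · intro h
      exact le_of_sq_le_sq h (abs_nonneg _) |> fun h => h
    · intro h
      exact pow_le_pow_left₀ ht.le h 2
  rw [h2] at h1
  rw [le_div_iff₀ (by positivity), mul_comm]
  exact h1.trans (hV x)

lemma T_lip (q : Par) (ω : Om e) (x y : V e) :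
    |T q ω 0 x - T q ω 0 y| ≤ q.b * n1 (x - y) := by
  rw [abs_le]
  have h1 := T_tri q ω 0 x y
  have h2 := T_tri q ω 0 y x
  have h3 := T_le_n1 q ω x y
  have h4 := T_le_n1 q ω y x
  rw [n1_sub_comm y x] at h3
  constructor <;> linarith

lemma g_lip (q : Par) (F : Measure ℝ) [IsProbabilityMeasure F] (x y : V e) :
    |g q F x - g q F y| ≤ q.b * n1 (x - y) := by
  unfold g
  rw [← integral_sub (int_T q F x) (int_T q F y)]
  refine (abs_integral_le_integral_abs).trans ?_
  calc ∫ ω, |T q ω 0 x - T q ω 0 y| ∂(PM e F) ≤ ∫ _, q.b * n1 (x - y) ∂(PM e F) :=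
        integral_mono ((int_T q F x).sub (int_T q F y)).abs (integrable_const _)
          fun ω => T_lip q ω x y
    _ = q.b * n1 (x - y) := by simp

lemma g_nonneg (q : Par) (F : Measure ℝ) [IsProbabilityMeasure F] (x : V e) : 0 ≤ g q F x :=
  integral_nonneg fun ω => T_nonneg q ω 0 x

lemma g_le (q : Par) (F : Measure ℝ) [IsProbabilityMeasure F] (x : V e) :
    g q F x ≤ q.b * n1 x := by
  unfold g
  calc ∫ ω, T q ω 0 x ∂(PM e F) ≤ ∫ _, q.b * n1 x ∂(PM e F) :=
        integral_mono (int_T q F x) (integrable_const _) fun ω => (le_abs_self _).trans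
          (T_abs_le q ω x)
    _ = q.b * n1 x := by simp

/-- rounding down to multiples of `r` -/
def rd (r : ℕ) (y : V e) : V e := fun i => y i / (r : ℤ)

lemma rd_close (r : ℕ) (hr : 1 ≤ r) (y : V e) (i : Fin (e + 2)) :
    0 ≤ y i - r * rd r y i ∧ y i - r * rd r y i < r := by
  have hr' : (0 : ℤ) < r := by exact_mod_cast hr
  unfold rd
  constructor
  · have := Int.emod_nonneg (y i) hr'.ne'
    rw [Int.emod_def] at this; exact this
  · have := Int.emod_lt_of_pos (y i) hr'
    rw [Int.emod_def] at this; exact this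

lemma n1_rd (r : ℕ) (hr : 1 ≤ r) (y : V e) : n1 (y - (r : ℤ) • rd r y) ≤ (e + 2) * r := by
  unfold n1
  calc ∑ i, |(y - (r : ℤ) • rd r y) i| ≤ ∑ _i : Fin (e + 2), (r : ℤ) := by
        refine Finset.sum_le_sum fun i _ => ?_
        have h := rd_close r hr y i
        simp only [Pi.sub_apply, Pi.smul_apply, smul_eq_mul]
        rw [abs_of_nonneg h.1]; exact h.2.le
    _ = _ := by simp

lemma n1_smul (r : ℤ) (x : V e) : n1 (r • x) = |r| * n1 x := by
  unfold n1
  rw [Finset.mul_sum]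
  refine Finset.sum_congr rfl fun i _ => ?_
  simp [abs_mul]

/-- **Uniform deviations.** At a large scale `R`, with high probability all passage times to the
points at distance at most `K R` are `δ R`-close to their means. -/
theorem unif (q : Par) (F : Measure ℝ) [IsProbabilityMeasure F] (hV : VarB e q F) {K δ ε : ℝ}
    (hK : 0 < K) (hδ : 0 < δ) (hε : 0 < ε) : ∃ R0 : ℝ, 0 < R0 ∧ ∀ R : ℝ, R0 ≤ R →
      PM e F {ω | ∃ x : V e, (n1 x : ℝ) ≤ K * R ∧ δ * R ≤ |T q ω 0 x - g q F x|} ≤
        ENNReal.ofReal ε := by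
  classical
  obtain ⟨C, hC, hV⟩ := hV
  have hb := q.hb
  set D : ℝ := (e : ℝ) + 2 with hD
  have hD0 : 0 < D := by positivity
  -- the mesh
  set η : ℝ := δ / (4 * (q.b * D)) with hη
  have hη0 : 0 < η := by positivity
  have hηδ : 2 * (q.b * D) * η = δ / 2 := by
    rw [hη]; field_simp; ring
  set N0 : ℕ := ⌈2 * K / η⌉₊ + 1 with hN0
  set pts : Finset (V e) := Fintype.piFinset fun _ => Finset.Icc (-(N0 : ℤ)) N0 with hpts
  set C' : ℝ := (pts.card : ℝ) * (C * (D * (η * N0)) / (δ / 2) ^ 2) with hC'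
  have hC'0 : 0 ≤ C' := by positivity
  refine ⟨2 / η + 1 + C' / ε, by positivity, fun R hR => ?_⟩
  have hCε : 0 ≤ C' / ε := by positivity
  have hR1 : 2 / η ≤ R := by linarith
  have hR0 : (0 : ℝ) < R := lt_of_lt_of_le (by positivity) hR1
  have hηR : 2 ≤ η * R := by
    rw [div_le_iff₀ hη0] at hR1; linarith
  set r : ℕ := ⌊η * R⌋₊ with hr
  have hr1 : (r : ℝ) ≤ η * R := Nat.floor_le (by positivity)
  have hr2 : η * R / 2 ≤ r := by
    have := Nat.lt_floor_add_one (η * R)
    rw [← hr] at this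
    linarith
  have hr3 : 1 ≤ r := by
    have : (1 : ℝ) ≤ r := by linarith
    exact_mod_cast this
  have hr0 : (0 : ℝ) < r := by exact_mod_cast hr3
  set E : V e → Set (Om e) := fun v =>
    {ω | δ * R / 2 ≤ |T q ω 0 ((r : ℤ) • v) - g q F ((r : ℤ) • v)|} with hE
  have hsub : {ω | ∃ x : V e, (n1 x : ℝ) ≤ K * R ∧ δ * R ≤ |T q ω 0 x - g q F x|} ⊆
      ⋃ v ∈ pts, E v := by
    rintro ω ⟨y, h1, hlt⟩
    set v := rd r y with hv
    have hvr := rd_close r hr3 y
    rw [← hv] at hvr
    have hvN : ∀ i, |v i| ≤ N0 := by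
      intro i
      have h2 : (|y i| : ℤ) ≤ n1 y := coord_le_n1 y i
      have h3 : (|(y i : ℝ)|) ≤ K * R := by
        have : ((|y i| : ℤ) : ℝ) ≤ (n1 y : ℝ) := by exact_mod_cast h2
        rw [Int.cast_abs] at this
        linarith
      obtain ⟨h4, h5⟩ := hvr i
      have h4' : (r : ℝ) * v i ≤ y i := by exact_mod_cast (by linarith : (r : ℤ) * v i ≤ y i)
      have h5' : (y i : ℝ) ≤ r * v i + r := by
        exact_mod_cast (by linarith : y i ≤ (r : ℤ) * v i + r)
      have h6 := abs_le.1 h3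
      have h7 : K * R ≤ 2 * K / η * r := by
        have : K * R = 2 * K / η * (η * R / 2) := by field_simp
        rw [this]
        exact mul_le_mul_of_nonneg_left hr2 (by positivity)
      have h8 : 2 * K / η ≤ ((N0 : ℕ) : ℝ) - 1 := by
        rw [hN0]; push_cast
        have := Nat.le_ceil (2 * K / η)
        linarith
      have h9 : (v i : ℝ) ≤ N0 := by
        have h10 : (r : ℝ) * v i ≤ r * (N0 - 1) := by nlinarith
        have := le_of_mul_le_mul_left h10 hr0
        linarith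
      have h11 : -(N0 : ℝ) ≤ v i := by
        have h10 : (r : ℝ) * (-(N0 - 1)) ≤ r * (v i + 1) := by nlinarith
        have := le_of_mul_le_mul_left h10 hr0
        linarith
      rw [abs_le]
      exact ⟨by exact_mod_cast h11, by exact_mod_cast h9⟩
    have hvp : v ∈ pts := by
      rw [hpts, Fintype.mem_piFinset]
      intro i
      have := abs_le.1 (hvN i)
      exact Finset.mem_Icc.2 this
    simp only [Set.mem_iUnion]
    refine ⟨v, hvp, ?_⟩
    have h5 := n1_rd r hr3 y
    rw [← hv] at h5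
    have h6 : ((n1 (y - (r : ℤ) • v) : ℤ) : ℝ) ≤ D * r := by
      rw [hD]; exact_mod_cast h5
    have h7 := T_lip q ω y ((r : ℤ) • v)
    have h8 := g_lip q F y ((r : ℤ) • v)
    have h9 : q.b * n1 (y - (r : ℤ) • v) ≤ q.b * (D * r) := mul_le_mul_of_nonneg_left h6 hb.le
    have h10 : 2 * (q.b * (D * r)) ≤ δ / 2 * R := by
      calc 2 * (q.b * (D * r)) ≤ 2 * (q.b * (D * (η * R))) := by gcongr
        _ = 2 * (q.b * D) * η * R := by ring
        _ = δ / 2 * R := by rw [hηδ]
    show δ * R / 2 ≤ |T q ω 0 ((r : ℤ) • v) - g q F ((r : ℤ) • v)|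
    have h11 : |T q ω 0 y - g q F y| ≤ |T q ω 0 y - T q ω 0 ((r : ℤ) • v)| +
        |T q ω 0 ((r : ℤ) • v) - g q F ((r : ℤ) • v)| + |g q F y - g q F ((r : ℤ) • v)| := by
      rw [abs_sub_comm (g q F y)]
      have h12 := abs_add_le (T q ω 0 y - T q ω 0 ((r : ℤ) • v) +
        (T q ω 0 ((r : ℤ) • v) - g q F ((r : ℤ) • v))) (g q F ((r : ℤ) • v) - g q F y)
      have h13 := abs_add_le (T q ω 0 y - T q ω 0 ((r : ℤ) • v))
        (T q ω 0 ((r : ℤ) • v) - g q F ((r : ℤ) • v))
      have h14 : T q ω 0 y - T q ω 0 ((r : ℤ) • v) +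
        (T q ω 0 ((r : ℤ) • v) - g q F ((r : ℤ) • v)) + (g q F ((r : ℤ) • v) - g q F y) =
          T q ω 0 y - g q F y := by ring
      rw [h14] at h12
      linarith
    linarith
  have hmeas : (PM e F).real (⋃ v ∈ pts, E v) ≤ C' / R := by
    have h1 : ∀ v ∈ pts, (PM e F).real (E v) ≤ C * (D * (η * N0)) / (δ / 2) ^ 2 / R := by
      intro v hv
      have h2 := cheb q F hV ((r : ℤ) • v) (t := δ * R / 2) (by positivity)
      refine h2.trans ?_
      have h3 : (n1 ((r : ℤ) • v) : ℝ) ≤ D * (η * N0) * R := by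
        rw [n1_smul]
        have h4 : n1 v ≤ (e + 2) * N0 := by
          unfold n1
          calc ∑ i, |v i| ≤ ∑ _i : Fin (e + 2), (N0 : ℤ) := by
                refine Finset.sum_le_sum fun i _ => ?_
                rw [hpts, Fintype.mem_piFinset] at hv
                have := Finset.mem_Icc.1 (hv i)
                exact abs_le.2 this
            _ = _ := by simp
        have h5 : ((n1 v : ℤ) : ℝ) ≤ D * N0 := by rw [hD]; exact_mod_cast h4
        have h6 : (0 : ℝ) ≤ n1 v := by exact_mod_cast n1_nonneg v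
        push_cast
        rw [abs_of_nonneg hr0.le]
        calc (r : ℝ) * n1 v ≤ (η * R) * (D * N0) :=
              mul_le_mul hr1 h5 h6 (by positivity)
          _ = _ := by ring
      calc C * n1 ((r : ℤ) • v) / (δ * R / 2) ^ 2
          ≤ C * (D * (η * N0) * R) / (δ * R / 2) ^ 2 := by
            gcongr
        _ = _ := by field_simp
    calc (PM e F).real (⋃ v ∈ pts, E v) ≤ ∑ v ∈ pts, (PM e F).real (E v) :=
          measureReal_biUnion_finset_le _ _
      _ ≤ ∑ _v ∈ pts, C * (D * (η * N0)) / (δ / 2) ^ 2 / R := Finset.sum_le_sum h1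
      _ = C' / R := by
          rw [Finset.sum_const, nsmul_eq_mul, hC']; ring
  calc PM e F {ω | ∃ x : V e, (n1 x : ℝ) ≤ K * R ∧ δ * R ≤ |T q ω 0 x - g q F x|}
      ≤ PM e F (⋃ v ∈ pts, E v) := measure_mono hsub
    _ = ENNReal.ofReal ((PM e F).real (⋃ v ∈ pts, E v)) :=
        (ofReal_measureReal (measure_ne_top _ _)).symm
    _ ≤ ENNReal.ofReal ε := by
        refine ENNReal.ofReal_le_ofReal (hmeas.trans ?_)
        rw [div_le_iff₀ hR0]
        have h2 : C' / ε ≤ R := by
          have : 0 < 2 / η := by positivity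
          linarith
        rw [div_le_iff₀ hε] at h2
        linarith

/-- far points are reached late -/
theorem far (q : Par) (F : Measure ℝ) [IsProbabilityMeasure F] (hF : FarB e q F) :
    ∃ K : ℝ, 1 ≤ K ∧ ∀ ε : ℝ, 0 < ε → ∃ R0 : ℝ, 0 < R0 ∧ ∀ R : ℝ, R0 ≤ R →
      PM e F {ω | ∃ x : V e, K * R ≤ n1 x ∧ T q ω 0 x < R} ≤ ENNReal.ofReal ε := by
  obtain ⟨c1, hc1, hF⟩ := hF
  obtain ⟨C, hC, hF⟩ := hF 1
  have hK1 : 1 ≤ 1 / c1 + 1 := by
    have : 0 < 1 / c1 := by positivity
    linarith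
  refine ⟨1 / c1 + 1, hK1, fun ε hε => ⟨C / ε + 1, by positivity, fun R hR => ?_⟩⟩
  have hCε : 0 ≤ C / ε := by positivity
  have hR0 : 0 < R := by linarith
  have hR0' : 0 ≤ R := hR0.le
  have hc : 0 < 1 / c1 := by positivity
  refine (measure_mono ?_).trans ((hF ⌊R⌋₊).trans (ENNReal.ofReal_le_ofReal ?_))
  · rintro ω ⟨x, hx, hT⟩
    have h2 : R ≤ (1 / c1 + 1) * R := by nlinarith
    refine ⟨x, ?_, ?_⟩
    · have h1 := Nat.floor_le hR0'
      have h3 : ((⌊R⌋₊ : ℕ) : ℝ) ≤ ((n1 x : ℤ) : ℝ) := by linarith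
      exact_mod_cast h3
    · refine hT.trans_le ?_
      have h4 : R / c1 ≤ n1 x := by
        have : R / c1 ≤ (1 / c1 + 1) * R := by
          rw [div_eq_mul_one_div]; nlinarith
        linarith
      rw [div_le_iff₀ hc1] at h4
      linarith
  · rw [pow_one, div_le_iff₀ (by positivity)]
    have h1 := Nat.lt_floor_add_one R
    have h2 : C / ε ≤ (⌊R⌋₊ : ℝ) + 1 := by linarith
    rw [div_le_iff₀ hε] at h2
    linarith

/-- lower bound for the mean passage time to a half-space -/
theorem Pp_lower (q : Par) (F : Measure ℝ) [IsProbabilityMeasure F] (hV : VarB e q F)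
    (hF : FarB e q F) {c : E e} (lb : ∀ x : V e, lf c x ≤ g q F x) {δ : ℝ} (hδ : 0 < δ)
    (hδ1 : δ < 1) : ∃ R0 : ℝ, 0 < R0 ∧ ∀ R : ℝ, R0 ≤ R →
      ENNReal.ofReal ((1 - δ) * R * (1 - δ)) ≤ Pp e q F c R := by
  obtain ⟨K, hK, hfar⟩ := far q F hF
  obtain ⟨R1, hR1, hfar⟩ := hfar (δ / 2) (by positivity)
  obtain ⟨R2, hR2, hun⟩ := unif q F hV (K := K) (δ := δ) (ε := δ / 2) (by linarith) hδ
    (by positivity)
  refine ⟨max R1 R2, lt_max_of_lt_left hR1, fun R hR => ?_⟩
  have hf := hfar R ((le_max_left _ _).trans hR)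
  have hu := hun R ((le_max_right _ _).trans hR)
  have hR0 : 0 < R := hR1.trans_le ((le_max_left _ _).trans hR)
  set B := {ω : Om e | ∃ x : V e, K * R ≤ n1 x ∧ T q ω 0 x < R} ∪
    {ω : Om e | ∃ x : V e, (n1 x : ℝ) ≤ K * R ∧ δ * R ≤ |T q ω 0 x - g q F x|} with hB
  have hPB : PM e F B ≤ ENNReal.ofReal δ := by
    refine (measure_union_le _ _).trans ((add_le_add hf hu).trans ?_)
    rw [← ENNReal.ofReal_add (by positivity) (by positivity)]
    exact ENNReal.ofReal_le_ofReal (by linarith)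
  set B' := toMeasurable (PM e F) B with hB'
  have hB'm : MeasurableSet B' := measurableSet_toMeasurable _ _
  have hPB' : PM e F B' ≤ ENNReal.ofReal δ := by rw [hB', measure_toMeasurable]; exact hPB
  have hsub : B ⊆ B' := subset_toMeasurable _ _
  have h1 : ENNReal.ofReal ((1 - δ) * R) * PM e F B'ᶜ ≤ Pp e q F c R := by
    unfold Pp
    calc ENNReal.ofReal ((1 - δ) * R) * PM e F B'ᶜ
        = ∫⁻ _ in B'ᶜ, ENNReal.ofReal ((1 - δ) * R) ∂(PM e F) := by
          rw [setLIntegral_const]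
      _ ≤ ∫⁻ ω in B'ᶜ, X q ω (Slab c 0 R) 0 (HS c R) ∂(PM e F) := by
          refine setLIntegral_mono (X_meas q _ _ _) fun ω hω => ?_
          conv_rhs => unfold X
          refine le_iInf₂ fun y hy => le_iInf₂ fun p _ => ENNReal.ofReal_le_ofReal ?_
          refine le_trans ?_ (T_le q ω p)
          by_contra hlt
          push Not at hlt
          refine hω (hsub ?_)
          rcases le_total (K * R) (n1 y : ℝ) with h | h
          · exact Or.inl ⟨y, h, hlt.trans_le (by nlinarith)⟩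
          · refine Or.inr ⟨y, h, ?_⟩
            have h2 := lb y
            have h3 : R ≤ lf c y := hy
            rw [abs_sub_comm]
            refine le_trans ?_ (le_abs_self _)
            linarith
      _ ≤ _ := setLIntegral_le_lintegral _ _
  refine le_trans ?_ h1
  rw [ENNReal.ofReal_mul (by
    have : 0 ≤ 1 - δ := by linarith
    positivity)]
  refine mul_le_mul_right ?_ _
  rw [prob_compl_eq_one_sub hB'm, ENNReal.ofReal_sub _ hδ.le, ENNReal.ofReal_one]
  exact tsub_le_tsub_left hPB' _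

/-- the flat bound -/
theorem flat (q : Par) (F : Measure ℝ) [IsProbabilityMeasure F] (hV : VarB e q F)
    (hF : FarB e q F) {c : E e} (hc : c ≠ 0) (lb : ∀ x : V e, lf c x ≤ g q F x) {R : ℝ}
    (hR : 0 ≤ R) : ENNReal.ofReal R ≤ Pp e q F c R := by
  rcases hR.eq_or_lt with rfl | hR0
  · simp
  have hfin := Pp_ne_top q F hc R
  have main : ∀ δ : ℝ, 0 < δ → δ < 1 → (1 - δ) * R * (1 - δ) ≤ (Pp e q F c R).toReal := by
    intro δ hδ hδ1
    obtain ⟨R0, hR0', h0⟩ := Pp_lower q F hV hF lb hδ hδ1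
    obtain ⟨n, hn⟩ := exists_nat_ge (R0 / R + 1)
    have hn1 : (1 : ℝ) ≤ n := by
      have : 0 < R0 / R := by positivity
      linarith
    have hnR : R0 ≤ n * R := by
      have : R0 / R ≤ n := by linarith
      rwa [div_le_iff₀ hR0] at this
    have h1 := (h0 (n * R) hnR).trans (Pp_mul q F hc hR n)
    rw [← ENNReal.ofReal_toReal hfin, ← ENNReal.ofReal_natCast n,
      ← ENNReal.ofReal_mul (Nat.cast_nonneg n)] at h1
    have h2 := (ENNReal.ofReal_le_ofReal_iff (by positivity)).1 h1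
    have h6 : (n : ℝ) * ((1 - δ) * R * (1 - δ)) ≤ n * (Pp e q F c R).toReal := by
      calc (n : ℝ) * ((1 - δ) * R * (1 - δ)) = (1 - δ) * (n * R) * (1 - δ) := by ring
        _ ≤ _ := h2
    exact le_of_mul_le_mul_left h6 (by linarith)
  rw [← ENNReal.ofReal_toReal hfin]
  refine ENNReal.ofReal_le_ofReal ?_
  have hlim : Tendsto (fun δ : ℝ => (1 - δ) * R * (1 - δ)) (𝓝[>] 0) (𝓝 R) := by
    have h1 : Continuous fun δ : ℝ => (1 - δ) * R * (1 - δ) := by fun_prop
    have h2 := h1.tendsto 0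
    simp only [sub_zero, mul_one, one_mul] at h2
    exact h2.mono_left nhdsWithin_le_nhds
  refine le_of_tendsto hlim ?_
  filter_upwards [Ioo_mem_nhdsGT (show (0 : ℝ) < 1 by norm_num)] with δ hδ
  exact main δ hδ.1 hδ.2

/-- A nonnegative locally bounded function of at most linear growth is almost nondecreasing, at
arbitrarily large points. -/
lemma almost_mono (f : ℝ → ℝ) (hf : ∀ R, 0 ≤ R → 0 ≤ f R) {C : ℝ}
    (hC : ∀ R, 0 ≤ R → f R ≤ C * (R + 1)) {L δ : ℝ} (hL : 0 < L) (hδ : 0 < δ) :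
    ∃ R : ℝ, L ≤ R ∧ ∀ R', R - L ≤ R' → R' ≤ R → f R' ≤ f R + δ := by
  by_contra hcon
  push Not at hcon
  have hC0 : 0 ≤ C := by
    have h1 := hf 0 le_rfl
    have h2 := hC 0 le_rfl
    linarith
  -- going down from `R` with steps of at most `L`
  have key : ∀ R0 : ℝ, ∀ m : ℕ, ∀ R : ℝ, 0 ≤ R → R ≤ R0 → C * (R0 + 1) - m * δ ≤ f R →
      ∃ r, 0 ≤ r ∧ r < L ∧ f R + δ * (R - L) / L ≤ f r := by
    intro R0 m
    induction m with
    | zero =>
      intro R hR hR0 h
      rcases lt_or_ge R L with hRL | hRL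
      · refine ⟨R, hR, hRL, ?_⟩
        have : δ * (R - L) / L ≤ 0 :=
          div_nonpos_of_nonpos_of_nonneg (by nlinarith) hL.le
        linarith
      · obtain ⟨R', h1, h2, h3⟩ := hcon R hRL
        have h4 := hC R' (by linarith)
        have h5 : C * (R' + 1) ≤ C * (R0 + 1) := by
          apply mul_le_mul_of_nonneg_left _ hC0; linarith
        simp only [Nat.cast_zero, zero_mul, sub_zero] at h
        linarith
    | succ m ih =>
      intro R hR hR0 h
      rcases lt_or_ge R L with hRL | hRL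
      · refine ⟨R, hR, hRL, ?_⟩
        have : δ * (R - L) / L ≤ 0 :=
          div_nonpos_of_nonpos_of_nonneg (by nlinarith) hL.le
        linarith
      · obtain ⟨R', h1, h2, h3⟩ := hcon R hRL
        push_cast at h
        obtain ⟨r, hr0, hrL, hr⟩ := ih R' (by linarith) (by linarith) (by linarith)
        refine ⟨r, hr0, hrL, ?_⟩
        have h6 : δ * (R - L) / L - δ ≤ δ * (R' - L) / L := by
          rw [← sub_nonneg]
          have : δ * (R' - L) / L - (δ * (R - L) / L - δ) = δ * (R' - (R - L)) / L := by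
            field_simp; ring
          rw [this]
          have : 0 ≤ R' - (R - L) := by linarith
          positivity
        linarith
  set R := L + L * (C * (L + 1) + 1) / δ with hR
  have hR0 : L ≤ R := by
    rw [hR]
    have : 0 ≤ L * (C * (L + 1) + 1) / δ := by positivity
    linarith
  obtain ⟨m, hm⟩ := exists_nat_ge (C * (R + 1) / δ)
  rw [div_le_iff₀ hδ] at hm
  obtain ⟨r, hr0, hrL, hr⟩ := key R m R (by linarith) le_rfl (by
    have := hf R (by linarith)
    linarith)
  have h1 := hC r hr0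
  have h2 : C * (r + 1) ≤ C * (L + 1) := by
    apply mul_le_mul_of_nonneg_left _ hC0; linarith
  have h3 := hf R (by linarith)
  have h4 : δ * (R - L) / L = C * (L + 1) + 1 := by
    rw [hR]; field_simp; ring
  linarith

end Pool.Agent.J6H99.NC
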