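import Pool.Agent.J6H99.NC.Stm2

/-!
# Stage 2: no vertices in every dimension, infinitely many rays for `d = 2, 3`, rays in exposed
directions

`L`, `CC`, `DD`, `supp_iff`, `exists_supp`, `tangency`, `dif_of_unique`, `isCompact_CC` are in
`Pool.Agent.J6H81.NC.{G, G2}` (helper81); `supp_of_approx`, `supp_closed`, `isCompact_sphere_nr` in
`Pool.Agent.J6H63.NC.{GL, InfSep}` (helper63); `lateral`, `poly` in `Pool.Agent.J6H23.NC.Poly`.
-/

set_option autoImplicit false

open MeasureTheory ProbabilityTheory Filter Topology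
open scoped ENNReal

namespace Pool.Agent.J6H99.NC

/-- the functional `c` is a gradient of the time constant -/
def Grad {e : ℕ} (q : Par) (F : Measure ℝ) [IsProbabilityMeasure F] (c : E e) : Prop :=
  ∃ y : E e, 0 < dt c y ∧ Dif q F c y ∧ Supp q F c y

/-- no corners -/
def NoCor (e : ℕ) (q : Par) (F : Measure ℝ) [IsProbabilityMeasure F] : Prop :=
  ∀ (ι : Type) [Fintype ι] (_ : Cor e q F ι), False

/-- no vertices: the supporting functionals in no direction have full dimension -/
def NoVert (e : ℕ) (q : Par) (F : Measure ℝ) [IsProbabilityMeasure F] : Prop :=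
  ∀ p : E e, p ≠ 0 → Module.finrank ℝ (vectorSpan ℝ {c : E e | Supp q F c p}) ≤ e

/-- MODULE NV (all dimensions).

Proof. Normalize `L p = 1` (`Supp` is invariant under positive multiples of `p`, `L p > 0` by
`FarB`). `D = DD q F p` is compact, all its elements have `dt c p = 1`, so
`vectorSpan D ⊆ {w | dt w p = 0}`, which has dimension `e + 1`. Suppose that the dimension is
`e + 1`. Choose successively `f 0, f 1, ..., f (e + 1) ∈ D` affinely independent, each one a
maximizer over `D` of some direction `u' i`: if the affine span `A` of the chosen ones is not all of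
the affine span of `D`, there are a direction `u'` constant on `A` and `c ∈ D` with a larger value of
`u'` (change the sign); take a maximizer of `u'` over `D`. Put `u i = u' i - dt (f i) (u' i) • p`; it
is not `0` as `u'` is not constant on `D` (for `f 0` choose also a nonconstant direction). `fu`,
`tang` by `tangency` (with `m = 0`, and `U_L` / `L_le_iff`), `lb`, `fv`, `ub` clear; `lat`: if
`dt χ w = 0` and all `dt (f i) w ≤ 0` then all are `0`, so `w ⊥ vectorSpan D = p^⊥`, `w = t p`,
`0 = dt χ w = t`; so `lateral` (helper23) applies. -/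
def NVT : Prop := ∀ (e : ℕ) (q : Par) (F : Measure ℝ) [IsProbabilityMeasure F], FarB e q F →
  NoCor e q F → NoVert e q F

/-- MODULE DENSE. Gradients determine the time constant.

Proof. `L` is Lipschitz (`L_add`, `L_bound`), hence differentiable almost everywhere
(`LipschitzWith.ae_differentiableAt`), so on a dense set. Take a point of differentiability `y'`
close to `y`; there the supporting functional `c` (`exists_supp`) is unique (it is the derivative),
so `Dif q F c y'` by `dif_of_unique`, `0 < dt c y' = L y'` by `FarB`; and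
`L y ≤ L y' + C |y - y'| ≤ dt c y + 2 C' |y - y'|`. -/
def DenseT : Prop := ∀ (e : ℕ) (q : Par) (F : Measure ℝ) [IsProbabilityMeasure F], FarB e q F →
  ∀ y : E e, y ≠ 0 → ∀ δ : ℝ, 0 < δ → ∃ c : E e, Grad q F c ∧
    ∀ᶠ n : ℕ in atTop, g q F (rnd ((n : ℝ) • y)) ≤ n * (dt c y + δ)

/-- the functionals of `s` are not covered by `N` directions -/
def Unc {e : ℕ} (q : Par) (F : Measure ℝ) [IsProbabilityMeasure F] (s : Finset (E e)) (N : ℕ) :
    Prop := ∀ p : Fin N → E e, (∀ j, p j ≠ 0) → ∃ c ∈ s, ∀ j, ¬ Supp q F c (p j)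

/-- MODULE COVER (dimensions two and three).

Proof. Suppose that for some `N` every finite set `s` of gradients is covered by `N` points (take
them on the compact sphere `nr p = 1`). The sets of the `N`-tuples `p` which cover `s` are compact
(`supp_closed`), nonempty and directed, so some `p` covers all gradients. The sets
`D_j = {c | Supp q F c (p j)}` are compact, convex, of dimension at most `e ≤ 1` (`NoVert`), so each
is a point or a segment: let `S` be the finite set of their end points. By `DENSE`, for every `y ≠ 0`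
and `δ` there is a gradient `c ∈ ⋃ D_j` with `L y ≤ dt c y + δ`, so
`L y ≤ max (c ∈ S) dt c y + δ`: this contradicts the conclusion of `PolyT`. -/
def CoverT : Prop := DenseT → PolyT → ∀ e : ℕ, e ≤ 1 → ∀ (q : Par) (F : Measure ℝ)
  [IsProbabilityMeasure F], FarB e q F → NoCor e q F → NoVert e q F → ∀ N : ℕ,
  ∃ s : Finset (E e), (∀ c ∈ s, Grad q F c) ∧ Unc q F s N

/-- MODULE SEP2. Compactness, as in `SepT`: otherwise, for `η = 1 / n`, `m1 = n` there is a map `φ`
(the same one for infinitely many `n`, as `s` and `Fin N` are finite) and for every `j` a point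
`z_j ^ n`, `|z_j ^ n| ≥ n`, with `g z ≤ lf c z + |z| / n` for all `c ∈ s` with `φ c = j`; limits of
`z_j ^ n / |z_j ^ n|` cover `s` (`supp_of_approx`). -/
def Sep2T : Prop := ∀ (e : ℕ) (q : Par) (F : Measure ℝ) [IsProbabilityMeasure F]
  (s : Finset (E e)) (N : ℕ), (∀ c ∈ s, ∀ x : V e, lf c x ≤ g q F x) → Unc q F s N →
  ∃ (η : ℝ) (m1 : ℕ), 0 < η ∧ ∀ φ : E e → Fin N, ∃ j : Fin N, ∀ z : V e, (m1 : ℤ) ≤ n1 z →
    ∃ c ∈ s, φ c = j ∧ lf c z + η * n1 z < g q F z

/-- MODULE RAY2. As `RayT` (`Pool/Agent/J6H38/NC/Ray.lean`): every `c ∈ s` gives a ray `x c` whose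
points at distance `m` are good for `c`; if there were at most `N` different ones, let `φ c` be the
number of the ray of `c`; for the `j` of the hypothesis, the point `z` of the `j`-th ray at distance
`m ≥ m1` is good for all `c ∈ s` with `φ c = j`, a contradiction (there is at least one such `c` by
the hypothesis). -/
def Ray2T : Prop := BusT → ∀ (e : ℕ) (q : Par) (F : Measure ℝ) [IsProbabilityMeasure F],
  VarB e q F → FarB e q F → ∀ (s : Finset (E e)) (N : ℕ) (η : ℝ) (m1 : ℕ), 0 < η → s.Nonempty →
  (∀ c ∈ s, Grad q F c) →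
  (∀ φ : E e → Fin N, ∃ j : Fin N, ∀ z : V e, (m1 : ℤ) ≤ n1 z →
    ∃ c ∈ s, φ c = j ∧ lf c z + η * n1 z < g q F z) →
  ∀ᵐ ω ∂(PM e F), ∃ R : Finset (ℕ → V e), N + 1 ≤ R.card ∧ ∀ x ∈ R, Ray q ω x

/-- MODULE FIN13 (assembly). Infinitely many geodesic rays in the canonical model, dimensions two and
three. From `NVT, DenseT, CoverT, Sep2T, Ray2T`, the modules of `Stm` and `LAW`, `NoCor`. -/
def Fin13T : Prop := ∀ e : ℕ, e ≤ 1 → ∀ (q : Par) (F : Measure ℝ) [IsProbabilityMeasure F],
  F {t | q.w t ≤ 0} = 0 → NonDeg q F → ∀ᵐ ω ∂(PM e F), {x : ℕ → V e | Ray q ω x}.Infinite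

end Pool.Agent.J6H99.NC
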