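import Pool.Agent.J6H99.NC.Dev
import Pool.Agent.J6H99.NC.Stm

/-!
# First-passage percolation: the chain inequality
-/

set_option autoImplicit false

open MeasureTheory ProbabilityTheory Filter Topology
open scoped ENNReal

namespace Pool.Agent.J6H99.NC

theorem chain : ChainT := by
  intro e q F _ hV hF c hc lb I _ W y L hW hd hU hy0 hyL
  have hWm : ∀ i, MeasurableSet (W i) := fun i => MS_le _ _ (hW i)
  have hd' : Pairwise (Function.onFun Disjoint W) := fun i j hij => hd i j hij
  have hsum : ∑' i, PM e F (W i) = 1 := by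
    rw [← measure_iUnion (μ := PM e F) hd' hWm, hU, measure_univ]
  obtain ⟨C, hC, hbd⟩ := Pp_bdd q F hc
  have hfin := Pp_ne_top q F hc
  set φ : ℝ → ℝ := fun R => (Pp e q F c R).toReal - R with hφ
  have hφ0 : ∀ R, 0 ≤ R → 0 ≤ φ R := by
    intro R hR
    have h1 := flat q F hV hF hc lb hR
    have h2 := ENNReal.toReal_mono (hfin R) h1
    rw [ENNReal.toReal_ofReal hR] at h2
    simp only [hφ]; linarith
  have hφC : ∀ R, 0 ≤ R → φ R ≤ C * (R + 1) := by
    intro R hR
    have := hbd R hR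
    simp only [hφ]; linarith
  refine ENNReal.le_of_forall_pos_le_add fun δ hδ _ => ?_
  set L' := max L 1 with hL'
  have hL1 : L ≤ L' := le_max_left _ _
  have hL0 : 0 < L' := lt_of_lt_of_le one_pos (le_max_right _ _)
  obtain ⟨R, hR, hmono⟩ := almost_mono φ hφ0 hφC hL0 (show (0 : ℝ) < δ by exact_mod_cast hδ)
  have hR0 : 0 ≤ R := hL0.le.trans hR
  have key := comp_gen q F c R W y (fun i => Low c (lf c (y i)))
    (fun i => (Low_disjoint_EIn c le_rfl).mono_right Set.inter_subset_left) hW hd' hU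
    (fun i ω => X q ω (Slab c 0 (lf c (y i))) 0 {y i}) (fun i => X_meas q _ _ _)
    (fun i ω _ => by
      have h1 : Slab c 0 (lf c (y i)) ⊆ Slab c 0 R :=
        Slab_mono c le_rfl ((hyL i).trans (hL1.trans hR))
      have h2 : Slab c (lf c (y i)) R ⊆ Slab c 0 R := Slab_mono c (hy0 i) le_rfl
      exact (X_trans q ω (Slab c 0 R) 0 (y i) (HS c R)).trans
        (add_le_add (X_mono q ω h1 _ _) (X_mono q ω h2 _ _)))
  have hstep : ∀ i, Pp e q F c (R - lf c (y i)) + ENNReal.ofReal (lf c (y i)) ≤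
      Pp e q F c R + δ := by
    intro i
    have h1 := hy0 i
    have h2 := hyL i
    have h3 := hmono (R - lf c (y i)) (by linarith) (by linarith)
    simp only [hφ] at h3
    rw [← ENNReal.ofReal_toReal (hfin (R - lf c (y i))), ← ENNReal.ofReal_toReal (hfin R),
      ← ENNReal.ofReal_add ENNReal.toReal_nonneg h1,
      show (δ : ℝ≥0∞) = ENNReal.ofReal δ by simp,
      ← ENNReal.ofReal_add ENNReal.toReal_nonneg (NNReal.coe_nonneg δ)]
    exact ENNReal.ofReal_le_ofReal (by linarith)
  have h4 : Pp e q F c R + ∑' i, PM e F (W i) * ENNReal.ofReal (lf c (y i)) ≤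
      Pp e q F c R + (∑' i, ∫⁻ ω in W i, X q ω (Slab c 0 (lf c (y i))) 0 {y i} ∂(PM e F) + δ) := by
    calc Pp e q F c R + ∑' i, PM e F (W i) * ENNReal.ofReal (lf c (y i))
        ≤ ∑' i, ∫⁻ ω in W i, X q ω (Slab c 0 (lf c (y i))) 0 {y i} ∂(PM e F) +
          ∑' i, PM e F (W i) * Pp e q F c (R - lf c (y i)) +
          ∑' i, PM e F (W i) * ENNReal.ofReal (lf c (y i)) := add_le_add key le_rfl
      _ = ∑' i, ∫⁻ ω in W i, X q ω (Slab c 0 (lf c (y i))) 0 {y i} ∂(PM e F) +
          ∑' i, PM e F (W i) * (Pp e q F c (R - lf c (y i)) + ENNReal.ofReal (lf c (y i))) := by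
          rw [add_assoc, ← ENNReal.tsum_add]
          simp only [mul_add]
      _ ≤ ∑' i, ∫⁻ ω in W i, X q ω (Slab c 0 (lf c (y i))) 0 {y i} ∂(PM e F) +
          ∑' i, PM e F (W i) * (Pp e q F c R + δ) := by
          refine add_le_add le_rfl (ENNReal.tsum_le_tsum fun i => mul_le_mul_right (hstep i) _)
      _ = _ := by
          rw [ENNReal.tsum_mul_right, hsum, one_mul]
          ring
  exact (ENNReal.add_le_add_iff_left (hfin R)).1 h4

end Pool.Agent.J6H99.NC
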