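import Mathlib

/-!
# First-passage percolation on `ℤ^(e+2)`: lattice, walks, costs
-/

set_option autoImplicit false

open MeasureTheory ProbabilityTheory
open scoped ENNReal

namespace Pool.Agent.J6H99.NC

/-- the vertices: `ℤ^d`, `d = e + 2` -/
abbrev V (e : ℕ) : Type := Fin (e + 2) → ℤ

variable {e : ℕ}

/-- the `ℓ¹` norm -/
def n1 (x : V e) : ℤ := ∑ i, |x i|

/-- the unit vector `e_i` -/
def u (i : Fin (e + 2)) : V e := Pi.single i 1

lemma n1_nonneg (x : V e) : 0 ≤ n1 x := Finset.sum_nonneg fun _ _ => abs_nonneg _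

@[simp] lemma n1_zero : n1 (0 : V e) = 0 := by simp [n1]

lemma n1_neg (x : V e) : n1 (-x) = n1 x := by simp [n1]

lemma n1_sub_comm (x y : V e) : n1 (x - y) = n1 (y - x) := by rw [← n1_neg, neg_sub]

lemma n1_add_le (x y : V e) : n1 (x + y) ≤ n1 x + n1 y := by
  unfold n1
  rw [← Finset.sum_add_distrib]
  exact Finset.sum_le_sum fun i _ => abs_add_le _ _

lemma n1_tri (x y z : V e) : n1 (x - z) ≤ n1 (x - y) + n1 (y - z) := by
  have := n1_add_le (x - y) (y - z)
  rwa [sub_add_sub_cancel] at this

lemma eq_of_n1 {x y : V e} (h : n1 (x - y) = 0) : x = y := by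
  funext i
  have h1 := (Finset.sum_eq_zero_iff_of_nonneg (fun i _ => abs_nonneg ((x - y) i))).1 h i
    (Finset.mem_univ _)
  have h2 : (x - y) i = 0 := abs_eq_zero.1 h1
  simpa [sub_eq_zero] using h2

lemma coord_le_n1 (x : V e) (i : Fin (e + 2)) : |x i| ≤ n1 x :=
  Finset.single_le_sum (f := fun i => |x i|) (fun _ _ => abs_nonneg _) (Finset.mem_univ i)

lemma n1_u (i : Fin (e + 2)) : n1 (u i : V e) = 1 := by
  unfold n1 u
  rw [Finset.sum_eq_single i]
  · simp
  · intro j _ hj
    simp [Pi.single_eq_of_ne hj]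
  · simp

/-- the lattice graph -/
def lat (e : ℕ) : SimpleGraph (V e) where
  Adj x y := n1 (x - y) = 1
  symm := ⟨fun x y h => by
    show n1 (y - x) = 1
    rw [n1_sub_comm]; exact h⟩
  loopless := ⟨fun x h => by
    have h' : n1 (x - x) = 1 := h
    simp at h'⟩

lemma adj_iff {x y : V e} : (lat e).Adj x y ↔ n1 (x - y) = 1 := Iff.rfl

/-- neighbours differ by a signed unit vector -/
lemma adj_cases {x y : V e} (h : (lat e).Adj x y) :
    ∃ i : Fin (e + 2), y = x + u i ∨ x = y + u i := by
  have h1 : n1 (x - y) = 1 := h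
  obtain ⟨i, hi⟩ : ∃ i, (x - y) i ≠ 0 := by
    by_contra hne
    push Not at hne
    have : x - y = 0 := by funext i; exact hne i
    rw [this] at h1
    simp at h1
  have h2 : 1 ≤ |(x - y) i| := Int.one_le_abs hi
  have h3 : |(x - y) i| + ∑ j ∈ Finset.univ.erase i, |(x - y) j| = 1 := by
    rw [Finset.add_sum_erase _ (fun j => |(x - y) j|) (Finset.mem_univ i)]; exact h1
  have h4 : 0 ≤ ∑ j ∈ Finset.univ.erase i, |(x - y) j| :=
    Finset.sum_nonneg fun _ _ => abs_nonneg _
  have h5 : ∑ j ∈ Finset.univ.erase i, |(x - y) j| = 0 := by omega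
  have h6 : |(x - y) i| = 1 := by omega
  have h7 : ∀ j, j ≠ i → x j = y j := by
    intro j hj
    have h8 := (Finset.sum_eq_zero_iff_of_nonneg (fun j _ => abs_nonneg ((x - y) j))).1 h5 j
      (Finset.mem_erase.2 ⟨hj, Finset.mem_univ _⟩)
    have h9 : (x - y) j = 0 := abs_eq_zero.1 h8
    simpa [sub_eq_zero] using h9
  refine ⟨i, ?_⟩
  have h10 : (x - y) i = 1 ∨ (x - y) i = -1 := by
    rcases abs_choice ((x - y) i) with h | h <;> omega
  rcases h10 with h | h
  · right
    funext j
    by_cases hj : j = i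
    · subst hj
      simp only [Pi.sub_apply] at h
      simp only [Pi.add_apply, u, Pi.single_eq_same]
      omega
    · simp [u, Pi.single_eq_of_ne hj, h7 j hj]
  · left
    funext j
    by_cases hj : j = i
    · subst hj
      simp only [Pi.sub_apply] at h
      simp only [Pi.add_apply, u, Pi.single_eq_same]
      omega
    · simp [u, Pi.single_eq_of_ne hj, h7 j hj]

lemma adj_add_u (x : V e) (i : Fin (e + 2)) : (lat e).Adj x (x + u i) := by
  show n1 (x - (x + u i)) = 1
  rw [show x - (x + u i) = -(u i) by abel, n1_neg, n1_u]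

lemma adj_sub_u (x : V e) (i : Fin (e + 2)) : (lat e).Adj x (x - u i) := by
  show n1 (x - (x - u i)) = 1
  rw [show x - (x - u i) = u i by abel, n1_u]

/-- bounds for the weights -/
structure Par where
  /-- the lower bound -/
  a : ℝ
  /-- the upper bound -/
  b : ℝ
  ha : 0 ≤ a
  hab : a ≤ b
  hb : 0 < b

/-- the weight, clamped to the interval `[a, b]` -/
noncomputable def Par.w (q : Par) (t : ℝ) : ℝ := max q.a (min q.b t)

lemma Par.a_le_w (q : Par) (t : ℝ) : q.a ≤ q.w t := le_max_left _ _

lemma Par.w_le_b (q : Par) (t : ℝ) : q.w t ≤ q.b := max_le q.hab (min_le_left _ _)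

lemma Par.w_nonneg (q : Par) (t : ℝ) : 0 ≤ q.w t := q.ha.trans (q.a_le_w t)

lemma Par.measurable_w (q : Par) : Measurable q.w :=
  measurable_const.max (measurable_const.min measurable_id)

/-- configurations -/
abbrev Om (e : ℕ) : Type := Sym2 (V e) → ℝ

/-- the passage time of a walk -/
noncomputable def cost (q : Par) (ω : Om e) {x y : V e} (p : (lat e).Walk x y) : ℝ :=
  (p.edges.map fun s => q.w (ω s)).sum

lemma cost_nil (q : Par) (ω : Om e) (x : V e) :
    cost q ω (SimpleGraph.Walk.nil : (lat e).Walk x x) = 0 := by simp [cost]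

lemma cost_cons (q : Par) (ω : Om e) {x y z : V e} (h : (lat e).Adj x y)
    (p : (lat e).Walk y z) :
    cost q ω (SimpleGraph.Walk.cons h p) = q.w (ω s(x, y)) + cost q ω p := by
  simp [cost]

lemma cost_append (q : Par) (ω : Om e) {x y z : V e} (p : (lat e).Walk x y)
    (p' : (lat e).Walk y z) : cost q ω (p.append p') = cost q ω p + cost q ω p' := by
  simp [cost, SimpleGraph.Walk.edges_append]

lemma cost_reverse (q : Par) (ω : Om e) {x y : V e} (p : (lat e).Walk x y) :
    cost q ω p.reverse = cost q ω p := by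
  simp [cost, SimpleGraph.Walk.edges_reverse, List.sum_reverse]

lemma cost_nonneg (q : Par) (ω : Om e) {x y : V e} (p : (lat e).Walk x y) :
    0 ≤ cost q ω p := by
  unfold cost
  apply List.sum_nonneg
  intro t ht
  obtain ⟨s, _, rfl⟩ := List.mem_map.1 ht
  exact q.w_nonneg _

lemma cost_ge (q : Par) (ω : Om e) {x y : V e} (p : (lat e).Walk x y) :
    q.a * p.length ≤ cost q ω p := by
  induction p with
  | nil => simp [cost_nil]
  | @cons x y z h p ih =>
    rw [cost_cons, SimpleGraph.Walk.length_cons]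
    push_cast
    have := q.a_le_w (ω s(x, y))
    linarith

lemma cost_le (q : Par) (ω : Om e) {x y : V e} (p : (lat e).Walk x y) :
    cost q ω p ≤ q.b * p.length := by
  induction p with
  | nil => simp [cost_nil]
  | @cons x y z h p ih =>
    rw [cost_cons, SimpleGraph.Walk.length_cons]
    push_cast
    have := q.w_le_b (ω s(x, y))
    linarith

lemma n1_le_length {x y : V e} (p : (lat e).Walk x y) : n1 (y - x) ≤ p.length := by
  induction p with
  | nil => simp
  | @cons x y z h p ih =>
    rw [SimpleGraph.Walk.length_cons]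
    have h1 := n1_tri z y x
    have h2 : n1 (y - x) = 1 := by rw [n1_sub_comm]; exact h
    push_cast
    linarith

lemma n1_le_of_mem {x y v : V e} (p : (lat e).Walk x y) (hv : v ∈ p.support) :
    n1 (v - x) ≤ p.length := by
  classical
  have h1 := n1_le_length (p.takeUntil v hv)
  have h2 := p.length_takeUntil_le_length hv
  have : ((p.takeUntil v hv).length : ℤ) ≤ p.length := by exact_mod_cast h2
  linarith

/-- the set of the edges with both end points in `R` -/
def EIn (R : Set (V e)) : Set (Sym2 (V e)) := {s | ∀ v ∈ s, v ∈ R}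

lemma edges_EIn {x y : V e} {p : (lat e).Walk x y} {R : Set (V e)}
    (h : ∀ v ∈ p.support, v ∈ R) : ∀ s ∈ p.edges, s ∈ EIn R := by
  intro s hs v hv
  exact h v (p.mem_support_of_mem_edges hs hv)

/-- the walk uses only edges of `A` -/
def Uses {x y : V e} (p : (lat e).Walk x y) (A : Set (Sym2 (V e))) : Prop := ∀ s ∈ p.edges, s ∈ A

lemma Uses.nil (x : V e) (A : Set (Sym2 (V e))) :
    Uses (SimpleGraph.Walk.nil : (lat e).Walk x x) A := by simp [Uses]

lemma Uses.append {x y z : V e} {p : (lat e).Walk x y} {p' : (lat e).Walk y z}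
    {A : Set (Sym2 (V e))} (h : Uses p A) (h' : Uses p' A) : Uses (p.append p') A := by
  intro s hs
  rw [SimpleGraph.Walk.edges_append, List.mem_append] at hs
  rcases hs with hs | hs
  · exact h s hs
  · exact h' s hs

lemma Uses.mono {x y : V e} {p : (lat e).Walk x y} {A B : Set (Sym2 (V e))} (h : Uses p A)
    (hAB : A ⊆ B) : Uses p B := fun s hs => hAB (h s hs)

lemma Uses.reverse {x y : V e} {p : (lat e).Walk x y} {A : Set (Sym2 (V e))} (h : Uses p A) :
    Uses p.reverse A := by
  intro s hs
  rw [SimpleGraph.Walk.edges_reverse, List.mem_reverse] at hs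
  exact h s hs

/-- some walk from `x` to `y` with edges in `A` has cost at most `t` -/
def Ev (q : Par) (A : Set (Sym2 (V e))) (x y : V e) (t : ℝ) : Set (Om e) :=
  {ω | ∃ p : (lat e).Walk x y, Uses p A ∧ cost q ω p ≤ t}

/-- the passage time -/
noncomputable def T (q : Par) (ω : Om e) (x y : V e) : ℝ := ⨅ p : (lat e).Walk x y, cost q ω p

/-- the law of the configuration -/
noncomputable def PM (e : ℕ) (F : Measure ℝ) [IsProbabilityMeasure F] : Measure (Om e) :=
  Measure.infinitePi fun _ => F

instance (F : Measure ℝ) [IsProbabilityMeasure F] : IsProbabilityMeasure (PM e F) := by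
  unfold PM; infer_instance

/-- the mean passage time from `0` -/
noncomputable def g (q : Par) (F : Measure ℝ) [IsProbabilityMeasure F] (x : V e) : ℝ :=
  ∫ ω, T q ω 0 x ∂(PM e F)

end Pool.Agent.J6H99.NC
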