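import Pool.Agent.J6H99.NC.Prob

/-!
# First-passage percolation: real vectors, linear functionals, slabs, passage times to sets
-/

set_option autoImplicit false

open MeasureTheory ProbabilityTheory Filter Topology
open scoped ENNReal

namespace Pool.Agent.J6H99.NC

variable {e : ℕ}

/-- real vectors -/
abbrev E (e : ℕ) : Type := Fin (e + 2) → ℝ

/-- the lattice point as a real vector -/
def vc (x : V e) : E e := fun i => (x i : ℝ)

/-- the value of the linear functional with coefficients `c` -/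
def dt (c y : E e) : ℝ := ∑ i, c i * y i

/-- the `ℓ¹` norm of a real vector -/
def nr (y : E e) : ℝ := ∑ i, |y i|

/-- rounding down -/
noncomputable def rnd (y : E e) : V e := fun i => ⌊y i⌋

/-- the value at a lattice point -/
def lf (c : E e) (x : V e) : ℝ := dt c (vc x)

@[simp] lemma vc_zero : vc (0 : V e) = 0 := by funext i; simp [vc]

lemma vc_add (x y : V e) : vc (x + y) = vc x + vc y := by funext i; simp [vc]

lemma vc_sub (x y : V e) : vc (x - y) = vc x - vc y := by funext i; simp [vc]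

lemma vc_neg (x : V e) : vc (-x) = -vc x := by funext i; simp [vc]

lemma vc_smul (n : ℤ) (x : V e) : vc (n • x) = (n : ℝ) • vc x := by funext i; simp [vc]

@[simp] lemma dt_zero (c : E e) : dt c 0 = 0 := by simp [dt]

lemma dt_add (c y z : E e) : dt c (y + z) = dt c y + dt c z := by
  unfold dt; rw [← Finset.sum_add_distrib]
  exact Finset.sum_congr rfl fun i _ => by simp [mul_add]

lemma dt_neg (c y : E e) : dt c (-y) = -dt c y := by
  unfold dt; rw [← Finset.sum_neg_distrib]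
  exact Finset.sum_congr rfl fun i _ => by simp

lemma dt_sub (c y z : E e) : dt c (y - z) = dt c y - dt c z := by
  rw [sub_eq_add_neg, dt_add, dt_neg]; ring

lemma dt_smul (c : E e) (t : ℝ) (y : E e) : dt c (t • y) = t * dt c y := by
  unfold dt; rw [Finset.mul_sum]
  exact Finset.sum_congr rfl fun i _ => by simp; ring

lemma add_dt (c c' y : E e) : dt (c + c') y = dt c y + dt c' y := by
  unfold dt; rw [← Finset.sum_add_distrib]
  exact Finset.sum_congr rfl fun i _ => by simp [add_mul]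

lemma neg_dt (c y : E e) : dt (-c) y = -dt c y := by
  unfold dt; rw [← Finset.sum_neg_distrib]
  exact Finset.sum_congr rfl fun i _ => by simp

lemma sub_dt (c c' y : E e) : dt (c - c') y = dt c y - dt c' y := by
  rw [sub_eq_add_neg, add_dt, neg_dt]; ring

lemma smul_dt (t : ℝ) (c y : E e) : dt (t • c) y = t * dt c y := by
  unfold dt; rw [Finset.mul_sum]
  exact Finset.sum_congr rfl fun i _ => by simp; ring

lemma sum_dt {ι : Type*} (s : Finset ι) (c : ι → E e) (y : E e) :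
    dt (∑ i ∈ s, c i) y = ∑ i ∈ s, dt (c i) y := by
  classical
  induction s using Finset.induction_on with
  | empty => simp [dt]
  | insert i s hi ih => rw [Finset.sum_insert hi, Finset.sum_insert hi, add_dt, ih]

lemma nr_nonneg (y : E e) : 0 ≤ nr y := Finset.sum_nonneg fun _ _ => abs_nonneg _

@[simp] lemma nr_zero : nr (0 : E e) = 0 := by simp [nr]

lemma nr_neg (y : E e) : nr (-y) = nr y := by simp [nr]

lemma nr_add_le (y z : E e) : nr (y + z) ≤ nr y + nr z := by
  unfold nr; rw [← Finset.sum_add_distrib]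
  exact Finset.sum_le_sum fun i _ => abs_add_le _ _

lemma nr_sub_le (y z : E e) : nr (y - z) ≤ nr y + nr z := by
  rw [sub_eq_add_neg, ← nr_neg z]; exact nr_add_le _ _

lemma nr_sub_comm (y z : E e) : nr (y - z) = nr (z - y) := by rw [← nr_neg, neg_sub]

lemma nr_tri (x y z : E e) : nr (x - z) ≤ nr (x - y) + nr (y - z) := by
  have := nr_add_le (x - y) (y - z)
  rwa [sub_add_sub_cancel] at this

lemma nr_smul (t : ℝ) (y : E e) : nr (t • y) = |t| * nr y := by
  unfold nr; rw [Finset.mul_sum]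
  exact Finset.sum_congr rfl fun i _ => by simp [abs_mul]

lemma nr_eq_zero {y : E e} (h : nr y = 0) : y = 0 := by
  funext i
  have h1 := (Finset.sum_eq_zero_iff_of_nonneg (fun i _ => abs_nonneg (y i))).1 h i
    (Finset.mem_univ _)
  exact abs_eq_zero.1 h1

lemma nr_pos {y : E e} (h : y ≠ 0) : 0 < nr y :=
  lt_of_le_of_ne (nr_nonneg y) fun h' => h (nr_eq_zero h'.symm)

lemma nr_vc (x : V e) : nr (vc x) = (n1 x : ℝ) := by
  unfold nr vc n1
  push_cast
  rfl

lemma abs_coord_le (y : E e) (i : Fin (e + 2)) : |y i| ≤ nr y :=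
  Finset.single_le_sum (f := fun i => |y i|) (fun _ _ => abs_nonneg _) (Finset.mem_univ i)

lemma abs_dt_le (c y : E e) : |dt c y| ≤ nr c * nr y := by
  unfold dt
  calc |∑ i, c i * y i| ≤ ∑ i, |c i * y i| := Finset.abs_sum_le_sum_abs _ _
    _ ≤ ∑ i, |c i| * nr y := Finset.sum_le_sum fun i _ => by
        rw [abs_mul]; exact mul_le_mul_of_nonneg_left (abs_coord_le y i) (abs_nonneg _)
    _ = nr c * nr y := by rw [← Finset.sum_mul]; rfl

lemma nr_rnd_sub (y : E e) : nr (vc (rnd y) - y) ≤ (e : ℝ) + 2 := by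
  unfold nr
  calc ∑ i, |(vc (rnd y) - y) i| ≤ ∑ _i : Fin (e + 2), (1 : ℝ) := by
        refine Finset.sum_le_sum fun i _ => ?_
        simp only [Pi.sub_apply, vc, rnd]
        have h1 := Int.floor_le (y i)
        have h2 := Int.lt_floor_add_one (y i)
        rw [abs_le]
        constructor <;> linarith
    _ = (e : ℝ) + 2 := by simp

@[simp] lemma rnd_zero : rnd (0 : E e) = 0 := by funext i; simp [rnd]

lemma rnd_vc (x : V e) : rnd (vc x) = x := by funext i; simp [rnd, vc]

lemma n1_le_nr {x : V e} {y : E e} {r : ℝ} (h : nr (vc x - y) ≤ r) : (n1 x : ℝ) ≤ nr y + r := by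
  rw [← nr_vc]
  have h1 := nr_add_le (vc x - y) y
  rw [sub_add_cancel] at h1
  linarith

lemma n1_rnd_le (y : E e) : (n1 (rnd y) : ℝ) ≤ nr y + ((e : ℝ) + 2) := n1_le_nr (nr_rnd_sub y)

lemma n1_rnd_sub_le (y z : E e) :
    (n1 (rnd y - rnd z) : ℝ) ≤ nr (y - z) + 2 * ((e : ℝ) + 2) := by
  rw [← nr_vc, vc_sub]
  have h1 := nr_rnd_sub y
  have h2 := nr_rnd_sub z
  have h3 : vc (rnd y) - vc (rnd z) = (vc (rnd y) - y) + ((y - z) + (z - vc (rnd z))) := by
    abel
  rw [h3]
  have h4 := nr_add_le (vc (rnd y) - y) ((y - z) + (z - vc (rnd z)))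
  have h5 := nr_add_le (y - z) (z - vc (rnd z))
  rw [nr_sub_comm z] at h5
  linarith

@[simp] lemma lf_zero (c : E e) : lf c 0 = 0 := by simp [lf]

lemma lf_add (c : E e) (x y : V e) : lf c (x + y) = lf c x + lf c y := by
  unfold lf; rw [vc_add, dt_add]

lemma lf_sub (c : E e) (x y : V e) : lf c (x - y) = lf c x - lf c y := by
  unfold lf; rw [vc_sub, dt_sub]

lemma lf_neg (c : E e) (x : V e) : lf c (-x) = -lf c x := by
  unfold lf; rw [vc_neg, dt_neg]

lemma lf_smul (c : E e) (n : ℤ) (x : V e) : lf c (n • x) = n * lf c x := by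
  unfold lf; rw [vc_smul, dt_smul]

lemma abs_lf_le (c : E e) (x : V e) : |lf c x| ≤ nr c * n1 x := by
  unfold lf; rw [← nr_vc]; exact abs_dt_le c _

lemma abs_lf_sub_le (c : E e) (x y : V e) : |lf c x - lf c y| ≤ nr c * n1 (x - y) := by
  rw [← lf_sub]; exact abs_lf_le c _

lemma abs_lf_rnd_sub (c y : E e) : |lf c (rnd y) - dt c y| ≤ nr c * ((e : ℝ) + 2) := by
  unfold lf
  rw [← dt_sub]
  exact (abs_dt_le c _).trans (mul_le_mul_of_nonneg_left (nr_rnd_sub y) (nr_nonneg c))

/-! ### Half-spaces and slabs -/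

/-- the half-space of the points with value at least `A` -/
def HS (c : E e) (A : ℝ) : Set (V e) := {x | A ≤ lf c x}

/-- the pairs with an element of value less than `B` -/
def Low (c : E e) (B : ℝ) : Set (Sym2 (V e)) := {s | ∃ x ∈ s, lf c x < B}

/-- the pairs in the half-space with an element of value less than `B` -/
def Slab (c : E e) (A B : ℝ) : Set (Sym2 (V e)) := EIn (HS c A) ∩ Low c B

/-- passage time from `x` to the set `Y` by walks with edges in `A` -/
noncomputable def X (q : Par) (ω : Om e) (A : Set (Sym2 (V e))) (x : V e) (Y : Set (V e)) : ℝ≥0∞ :=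
  ⨅ (y : V e) (_ : y ∈ Y) (p : (lat e).Walk x y) (_ : Uses p A), ENNReal.ofReal (cost q ω p)

/-- the mean passage time from `0` to the half-space, inside the slab -/
noncomputable def Pp (e : ℕ) (q : Par) (F : Measure ℝ) [IsProbabilityMeasure F] (c : E e)
    (R : ℝ) : ℝ≥0∞ := ∫⁻ ω, X q ω (Slab c 0 R) 0 (HS c R) ∂(PM e F)

lemma EIn_mono {R R' : Set (V e)} (h : R ⊆ R') : EIn R ⊆ EIn R' := fun _ hs v hv => h (hs v hv)

lemma HS_mono (c : E e) {A A' : ℝ} (h : A' ≤ A) : HS c A ⊆ HS c A' := fun _ hx => h.trans hx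

lemma Low_mono (c : E e) {B B' : ℝ} (h : B ≤ B') : Low c B ⊆ Low c B' :=
  fun _ ⟨x, hx, hl⟩ => ⟨x, hx, hl.trans_le h⟩

lemma Slab_mono (c : E e) {A A' B B' : ℝ} (h : A' ≤ A) (h' : B ≤ B') :
    Slab c A B ⊆ Slab c A' B' :=
  fun _ hs => ⟨EIn_mono (HS_mono c h) hs.1, Low_mono c h' hs.2⟩

lemma Low_disjoint_EIn (c : E e) {B A : ℝ} (h : B ≤ A) : Disjoint (Low c B) (EIn (HS c A)) := by
  rw [Set.disjoint_left]
  rintro s ⟨x, hx, hl⟩ h2
  exact absurd (h2 x hx) (not_le.2 (hl.trans_le h))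

lemma Slab_disjoint (c : E e) (A : ℝ) {B B' C : ℝ} (h : B ≤ B') :
    Disjoint (Slab c A B) (Slab c B' C) :=
  (Low_disjoint_EIn c h).mono Set.inter_subset_right Set.inter_subset_left

lemma X_le (q : Par) (ω : Om e) {A : Set (Sym2 (V e))} {x y : V e} {Y : Set (V e)}
    (hy : y ∈ Y) (p : (lat e).Walk x y) (hp : Uses p A) :
    X q ω A x Y ≤ ENNReal.ofReal (cost q ω p) := by
  unfold X
  exact iInf₂_le_of_le y hy (iInf₂_le_of_le p hp le_rfl)

lemma X_le_of_Ev (q : Par) {ω : Om e} {A : Set (Sym2 (V e))} {x y : V e} {Y : Set (V e)}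
    (hy : y ∈ Y) {t : ℝ} (h : ω ∈ Ev q A x y t) : X q ω A x Y ≤ ENNReal.ofReal t := by
  obtain ⟨p, hp, hc⟩ := h
  exact (X_le q ω hy p hp).trans (ENNReal.ofReal_le_ofReal hc)

lemma X_self (q : Par) (ω : Om e) (A : Set (Sym2 (V e))) {x : V e} {Y : Set (V e)} (hx : x ∈ Y) :
    X q ω A x Y = 0 := by
  have h := X_le q ω (A := A) hx SimpleGraph.Walk.nil (Uses.nil _ _)
  rw [cost_nil, ENNReal.ofReal_zero] at h
  exact nonpos_iff_eq_zero.1 h

lemma X_mono (q : Par) (ω : Om e) {A B : Set (Sym2 (V e))} (hAB : A ⊆ B) (x : V e)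
    (Y : Set (V e)) : X q ω B x Y ≤ X q ω A x Y := by
  unfold X
  refine le_iInf₂ fun y hy => le_iInf₂ fun p hp => ?_
  exact iInf₂_le_of_le y hy (iInf₂_le_of_le p (hp.mono hAB) le_rfl)

lemma X_anti (q : Par) (ω : Om e) (A : Set (Sym2 (V e))) (x : V e) {Y Y' : Set (V e)}
    (h : Y ⊆ Y') : X q ω A x Y' ≤ X q ω A x Y := by
  unfold X
  refine le_iInf₂ fun y hy => le_iInf₂ fun p hp => ?_
  exact iInf₂_le_of_le y (h hy) (iInf₂_le_of_le p hp le_rfl)

/-- concatenation -/
lemma X_trans (q : Par) (ω : Om e) (A : Set (Sym2 (V e))) (x y : V e) (Y : Set (V e)) :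
    X q ω A x Y ≤ X q ω A x {y} + X q ω A y Y := by
  conv_rhs => unfold X
  simp only [Set.mem_singleton_iff, iInf_iInf_eq_left]
  rw [ENNReal.iInf_add]
  refine le_iInf fun p => ?_
  rw [ENNReal.iInf_add]
  refine le_iInf fun hp => ?_
  rw [ENNReal.add_iInf]
  refine le_iInf fun z => ?_
  rw [ENNReal.add_iInf]
  refine le_iInf fun hz => ?_
  rw [ENNReal.add_iInf]
  refine le_iInf fun p' => ?_
  rw [ENNReal.add_iInf]
  refine le_iInf fun hp' => ?_
  refine (X_le q ω hz (p.append p') (hp.append hp')).trans ?_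
  rw [cost_append, ENNReal.ofReal_add (cost_nonneg q ω p) (cost_nonneg q ω p')]

lemma X_meas_MS (q : Par) {A B : Set (Sym2 (V e))} (hAB : A ⊆ B) (x : V e) (Y : Set (V e)) :
    Measurable[MS B] (fun ω : Om e => X q ω A x Y) := by
  unfold X
  refine Measurable.iInf (mδ := MS B) fun y => ?_
  refine Measurable.iInf (mδ := MS B) fun _ => ?_
  refine Measurable.iInf (mδ := MS B) fun p => ?_
  refine Measurable.iInf (mδ := MS B) fun hp => ?_
  exact ENNReal.measurable_ofReal.comp (measurable_cost_MS q p (Uses.mono hp hAB))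

lemma X_meas (q : Par) (A : Set (Sym2 (V e))) (x : V e) (Y : Set (V e)) :
    Measurable (fun ω : Om e => X q ω A x Y) := (X_meas_MS q subset_rfl x Y).mono (MS_le _) le_rfl

lemma T_le_X (q : Par) (ω : Om e) (A : Set (Sym2 (V e))) (x y : V e) :
    ENNReal.ofReal (T q ω x y) ≤ X q ω A x {y} := by
  unfold X
  simp only [Set.mem_singleton_iff, iInf_iInf_eq_left]
  exact le_iInf₂ fun p _ => ENNReal.ofReal_le_ofReal (T_le q ω p)

lemma X_act_le (q : Par) (φ : (lat e) ≃g (lat e)) {A B : Set (Sym2 (V e))} {Y Y' : Set (V e)}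
    (h : ∀ s ∈ B, s.map φ.symm ∈ A) (hY : ∀ y ∈ Y', φ.symm y ∈ Y) (x : V e) (ω : Om e) :
    X q (act φ ω) A x Y ≤ X q ω B (φ x) Y' := by
  conv_rhs => unfold X
  refine le_iInf₂ fun y hy => le_iInf₂ fun p hp => ?_
  have hx : φ.symm (φ x) = x := by simp
  have h1 : cost q ω p = cost q (act φ ω) ((p.map φ.symm.toHom).copy hx rfl) := by
    have h2 : cost q ω p = cost q (act φ.symm (act φ ω)) p := by rw [act_act_symm]
    rw [h2, cost_act]
    unfold cost
    rw [SimpleGraph.Walk.edges_copy]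
  rw [h1]
  refine X_le q _ (hY y hy) _ ?_
  intro s hs
  rw [SimpleGraph.Walk.edges_copy, SimpleGraph.Walk.edges_map, List.mem_map] at hs
  obtain ⟨s', hs', rfl⟩ := hs
  exact h s' (hp s' hs')

theorem X_act (q : Par) (φ : (lat e) ≃g (lat e)) {A B : Set (Sym2 (V e))} {Y Y' : Set (V e)}
    (h : ∀ s, s ∈ A ↔ s.map φ ∈ B) (hY : ∀ y, y ∈ Y ↔ φ y ∈ Y') (x : V e) (ω : Om e) :
    X q (act φ ω) A x Y = X q ω B (φ x) Y' := by
  refine le_antisymm ?_ ?_
  · refine X_act_le q φ (fun s hs => ?_) (fun y hy => ?_) x ω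
    · rw [h]
      have : (s.map φ.symm).map φ = s := (symEquiv φ).apply_symm_apply s
      rw [this]; exact hs
    · rw [hY]; simpa using hy
  · have h1 := X_act_le q φ.symm (A := B) (B := A) (Y := Y') (Y' := Y)
      (fun s hs => by simpa using (h s).1 hs) (fun y hy => by simpa using (hY y).1 hy) (φ x)
      (act φ ω)
    rw [act_act_symm] at h1
    simpa using h1

/-- the mean of a passage time is invariant -/
theorem lint_X_act (q : Par) (F : Measure ℝ) [IsProbabilityMeasure F] (φ : (lat e) ≃g (lat e))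
    {A B : Set (Sym2 (V e))} {Y Y' : Set (V e)}
    (h : ∀ s, s ∈ A ↔ s.map φ ∈ B) (hY : ∀ y, y ∈ Y ↔ φ y ∈ Y') (x : V e) :
    ∫⁻ ω, X q ω B (φ x) Y' ∂(PM e F) = ∫⁻ ω, X q ω A x Y ∂(PM e F) := by
  simp_rw [← X_act q φ h hY x]
  exact (act_mp F φ).lintegral_comp (X_meas q A x Y)

lemma mem_Low_tr (c : E e) (z : V e) (B : ℝ) (s : Sym2 (V e)) :
    s ∈ Low c B ↔ s.map (tr z) ∈ Low c (B + lf c z) := by
  constructor
  · rintro ⟨v, hv, h2⟩
    refine ⟨tr z v, Sym2.mem_map.2 ⟨v, hv, rfl⟩, ?_⟩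
    rw [tr_apply, lf_add]; linarith
  · rintro ⟨v, hv, h2⟩
    rw [Sym2.mem_map] at hv
    obtain ⟨v, hv, rfl⟩ := hv
    rw [tr_apply, lf_add] at h2
    exact ⟨v, hv, by linarith⟩

lemma mem_HS_tr (c : E e) (z : V e) (A : ℝ) (v : V e) :
    v ∈ HS c A ↔ tr z v ∈ HS c (A + lf c z) := by
  simp only [HS, Set.mem_ofPred_eq, tr_apply, lf_add]
  constructor <;> intro h <;> linarith

lemma Slab_tr (c : E e) (z : V e) (A B : ℝ) (s : Sym2 (V e)) :
    s ∈ Slab c A B ↔ s.map (tr z) ∈ Slab c (A + lf c z) (B + lf c z) :=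
  and_congr (EIn_map (tr z) (mem_HS_tr c z A) s) (mem_Low_tr c z B s)

/-- translation invariance of the mean passage time to a half-space -/
theorem lint_X_HS (q : Par) (F : Measure ℝ) [IsProbabilityMeasure F] (c : E e) (y : V e)
    (R : ℝ) :
    ∫⁻ ω, X q ω (Slab c (lf c y) R) y (HS c R) ∂(PM e F) = Pp e q F c (R - lf c y) := by
  have h := lint_X_act q F (tr y) (A := Slab c 0 (R - lf c y))
    (B := Slab c (0 + lf c y) (R - lf c y + lf c y)) (Y := HS c (R - lf c y))
    (Y' := HS c (R - lf c y + lf c y)) (Slab_tr c y _ _) (mem_HS_tr c y _) 0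
  rw [tr_apply, zero_add, zero_add, sub_add_cancel] at h
  exact h

/-- the integral over an event of other edges is a product -/
theorem lint_indep (F : Measure ℝ) [IsProbabilityMeasure F]
    {A B : Set (Sym2 (V e))} (hAB : Disjoint A B) {W : Set (Om e)} (hW : MeasurableSet[MS A] W)
    (f : Om e → ℝ≥0∞) (hf : Measurable[MS B] f) :
    ∫⁻ ω in W, f ω ∂(PM e F) = PM e F W * ∫⁻ ω, f ω ∂(PM e F) := by
  have hW' : MeasurableSet W := MS_le _ _ hW
  have h1 := lintegral_mul_eq_lintegral_mul_lintegral_of_independent_measurableSpace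
    (μ := PM e F) (MS_le A) (MS_le B) (indep_MS F hAB)
    (f := W.indicator fun _ => (1 : ℝ≥0∞)) (g := f)
    ((@measurable_const _ _ _ (MS A) _).indicator hW) hf
  rw [lintegral_indicator hW', setLIntegral_one] at h1
  rw [← h1, ← lintegral_indicator hW']
  congr 1
  funext ω
  by_cases h : ω ∈ W <;> simp [h]

/-- the Markov property at a level of a linear functional -/
theorem fresh (q : Par) (F : Measure ℝ) [IsProbabilityMeasure F] (c : E e) (y : V e) (R : ℝ)
    {A : Set (Sym2 (V e))} (hA : Disjoint A (Slab c (lf c y) R)) {W : Set (Om e)}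
    (hW : MeasurableSet[MS A] W) :
    ∫⁻ ω in W, X q ω (Slab c (lf c y) R) y (HS c R) ∂(PM e F) =
      PM e F W * Pp e q F c (R - lf c y) := by
  rw [← lint_X_HS q F c y R]
  exact lint_indep F hA hW _ (X_meas_MS q subset_rfl y _)

end Pool.Agent.J6H99.NC
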