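import Pool.Agent.J6H99.NC.Stm

/-!
# No corners of the limit shape: statements of the parts of CL, and of the final steps
-/

set_option autoImplicit false

open MeasureTheory ProbabilityTheory Filter Topology
open scoped ENNReal

namespace Pool.Agent.J6H99.NC

/-- FIRST. The first success, in the order of the levels `ℓ i` (ties are broken by an enumeration of
the finite type `I`): `W i = S i \ ⋃ (S j, j before i)`. -/
def FirstT : Prop := ∀ (e : ℕ) (c : E e) (I : Type) [Fintype I] (ℓ : I → ℝ) (S : I → Set (Om e))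
  (B : Set (Sym2 (V e))),
  (∀ i, MeasurableSet[MS (Low c (ℓ i))] (S i)) → (∀ i, MeasurableSet[MS B] (S i)) →
  ∃ W : I → Set (Om e), (∀ i, W i ⊆ S i) ∧ (∀ i, MeasurableSet[MS (Low c (ℓ i))] (W i)) ∧
    (∀ i, MeasurableSet[MS B] (W i)) ∧ (∀ i j, i ≠ j → Disjoint (W i) (W j)) ∧
    (⋃ i, W i) = ⋃ i, S i

/-- TRIALS. Independent trials. -/
def TrialsT : Prop := ∀ (e : ℕ) (F : Measure ℝ) [IsProbabilityMeasure F]
  (A : ℕ → Set (Sym2 (V e))) (B : ℕ → Set (Om e)) (η : ℝ), 0 ≤ η → η ≤ 1 →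
  (∀ i j, i ≠ j → Disjoint (A i) (A j)) → (∀ i, MeasurableSet[MS (A i)] (B i)) →
  (∀ i, ENNReal.ofReal η ≤ PM e F (B i)) →
  ∀ n : ℕ, PM e F (⋂ i ∈ Finset.range n, (B i)ᶜ) ≤ ENNReal.ofReal ((1 - η) ^ n)

/-- abstract search event -/
def SSa {e : ℕ} (q : Par) (c : E e) (T : Set (V e)) (s : ℝ) : Set (Om e) :=
  ⋃ y : V e, Ev q (EIn (T ∩ HS c 0 ∩ {x | lf c x ≤ lf c y}) ∩ Low c (lf c y)) 0 y (lf c y - s)

/-- CORE. `M` independent searches in the disjoint translates `z j + T` of a finite set `T`, each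
successful with probability at least `η`; default path `0 → z' → x' → y'`.

Proof. Index set `I = Option (Fin M × {y // y ∈ T ∧ 0 ≤ lf c y})`, levels `lf c (y + z j)`,
`S (j, y) = Ev q (EIn ({x | x - z j ∈ T} ∩ HS c (lf c (z j)) ∩ {x | lf c x ≤ lf c (y + z j)}) ∩
Low c (lf c (y + z j))) (z j) (y + z j) (lf c y - s)` (the translate by `z j` of the event in `SSa`,
`Ev_act`, `act_mp`; for `s > 0` only `y ∈ T` with `lf c y ≥ s` matter: the walk is not `nil`, and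
costs are nonnegative). `W (j, y)` by `FirstT` with `B = ⋃ j, EIn {x | x - z j ∈ T} ∩ EIn (HS c A)`,
`W none` the complement of the union, `P (W none) ≤ (1 - η) ^ M` by `TrialsT`; its point is `y'`.
On `W (j, y)`: `X (Slab c 0 (lf c (y + z j))) 0 {y + z j} ≤ X (Slab c 0 A) 0 {z j} + (lf c y - s)`
(`X_trans`, `X_mono`), the first summand is independent of `W (j, y)` (`lint_indep`, the edges of
`B` have no end point of level `< A`); so the integral is at most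
`P (W (j, y)) * (A + m + lf c y - s)`, while `lf c (y + z j) ≥ lf c y + A`. On `W none`:
`X ≤ X (Slab c 0 A) 0 {z'} + X (EIn R) z' {x'} + m''`, again independent of `W none`. `ChainT`
gives `∑ P (W (j, y)) * (lf c y + A) + P (W none) * (A + l) ≤ ∑ P (W (j, y)) * (A + m + lf c y - s)
+ P (W none) * (A + m + l + m' + m'')`. -/
def CoreT : Prop := ∀ (e : ℕ) (q : Par) (F : Measure ℝ) [IsProbabilityMeasure F],
  VarB e q F → FarB e q F → ∀ c : E e, c ≠ 0 → (∀ x : V e, lf c x ≤ g q F x) →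
  ∀ (T R : Set (V e)) (s η A m m' m'' l : ℝ) (M : ℕ) (z : ℕ → V e) (z' x' y' : V e),
    T.Finite → 0 < s → 0 ≤ η → η ≤ 1 → 0 ≤ A → 0 ≤ l → 0 ≤ m → 0 ≤ m' → 0 ≤ m'' →
    ENNReal.ofReal η ≤ PM e F (SSa q c T s) →
    (∀ j < M, A ≤ lf c (z j)) →
    (∀ j < M, ∫⁻ ω, X q ω (Slab c 0 A) 0 {z j} ∂(PM e F) ≤ ENNReal.ofReal (A + m)) →
    (∀ i < M, ∀ j < M, i ≠ j → ∀ x, x - z i ∈ T → x - z j ∈ T → False) →
    (∀ j < M, ∀ x ∈ T, lf c x + lf c (z j) ≤ lf c y') →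
    A + l ≤ lf c y' →
    ∫⁻ ω, X q ω (Slab c 0 A) 0 {z'} ∂(PM e F) ≤ ENNReal.ofReal (A + m) →
    ∫⁻ ω, X q ω (EIn R) z' {x'} ∂(PM e F) ≤ ENNReal.ofReal (l + m') →
    (∀ x ∈ R, 0 ≤ lf c x ∧ lf c x < lf c y') → (∀ x ∈ R, ∀ j < M, x - z j ∉ T) →
    (∀ ω : Om e, X q ω (Slab c 0 (lf c y')) x' {y'} ≤ ENNReal.ofReal m'') →
    (1 - (1 - η) ^ M) * (s - m) ≤ (1 - η) ^ M * (m + m' + m'')

/-- CLGEO. Geometry: from `CoreT` to `ClT`.

Proof. `c = D.f i`, `v = D.v`, `u = D.u i`, `k = kk D ε l`, `s = κ k`, `T = Tube D l (W k)`; we may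
assume `W ≥ 1` (`Tube_mono`), `κ ≤ 1`, `η < 1`. (`SSf D i l w s = SSa q c (Tube D l w) s`, rfl.)
Suppose `P > η`. Constants, in this order: `CU` of `UT` for `ε`, `p = -u` (`p ≠ t • v` since
`dt c u = 0`, `dt c v = 1`, `u ≠ 0`); a step `w0`, `n1 w0 = 1`, `a0 = lf c w0 > 0` (`exists_dir`);
`C7 = 2 W + nr c * (CU + 2) + 1`; `C6 = CU + q.b * ((C7 + nr c * (e + 2)) / a0 + 1)`; `C4` with
`C4 * nr u > (1 + nr c * nr v) * (2 * W / D.c0 + CU + 3)` and `C4 ≥ nr c * CU + 1`; `M ≥ 1` with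
`(1 - η) ^ M ≤ min (1 / 2) (κ / (16 * (C6 + 1)))`; `δ = κ / (16 * M * C4)`; `s0` by `D.tang i δ`;
`C5 = max 1 (1 / s0)`; `δ' = κ / (32 * C5 * M * C4)`. `A = C5 * M * C4 * (k + 1)`. Points `z j`,
`j < M`: `ReachT` for `y_j = v + s_j • u`, `s_j = (j + 1) / (C5 * M) ≤ s0`, `γ_j = 1 + δ * s_j`
(`dt c y_j = 1`): `nr (vc (z j) - A • y_j) ≤ C_j`, `A ≤ lf c (z j)`, mean `≤ A * (γ_j + δ')`; and `z'`
for `y = v`, `γ = 1 + δ'` (`D.ub`), mean `≤ A * (1 + 2 * δ')`. `m = κ * k / 4` (note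
`A * s_j ≤ M * C4 * (k + 1)`, `k + 1 ≤ 2 * k`). `Cs` so large that `k + 1 ≥` all the `C_j`, `A ≥` all
the `A0`. `R = {x | x - z' ∈ Strip v p l (CU * (k + 1))}`, `x' = z' + rnd (l • v)`, `m' = CU * (k + 1)`
(`UT` translated by `lint_X_act`), `n = ⌈(C7 + nr c * (e + 2)) * (k + 1) / a0⌉₊`,
`y' = x' + n • w0` (`Ev_steps`: the levels increase), `m'' = q.b * n`. Levels:
`lf c x ≤ χ x + W k ≤ l + 2 W k` on the tube; on `Strip`: `lf c x = s + O (nr c * CU * (k + 1))`.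
Disjointness: for `x - z i, x - z j ∈ T` (or `x ∈ R`) compare
`x = A v + (i + 1) C4 (k + 1) u + χ v + O (W k / c0 + C_i)` (`Cor.near_line`); a vector
`α v + β u` of norm `≤ r` has `|α| ≤ nr c * r`, `|β| * nr u ≤ r * (1 + nr c * nr v)`. Finally
`CoreT` gives `(1 / 2) * (3 / 4 κ k) ≤ (1 - η) ^ M * (κ k / 4 + C6 (k + 1)) < 3 / 8 κ k`. -/
def ClGeoT : Prop := CoreT → ClT

/-- the lattice edges -/
def IsEdge {e : ℕ} (s : Sym2 (V e)) : Prop := ∃ x y : V e, s = s(x, y) ∧ n1 (x - y) = 1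

/-- TRANSFER. From the canonical model to any i.i.d. family on the lattice edges.

Proof. On `Ω × Om e` with the measure `P.prod (PM e F)` consider `s ↦ t s ω` for lattice edges and
`s ↦ ω' s` for the other pairs: its law is `PM e F`. -/
def TransferT : Prop := ∀ (e : ℕ) (F : Measure ℝ) [IsProbabilityMeasure F] (Ω : Type)
  (mΩ : MeasurableSpace Ω) (P : Measure Ω), IsProbabilityMeasure P →
  ∀ t : Sym2 (V e) → Ω → ℝ, (∀ s, Measurable (t s)) →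
  iIndepFun (fun s : {s : Sym2 (V e) // IsEdge s} => t s.1) P →
  (∀ s : Sym2 (V e), IsEdge s → Measure.map (t s) P = F) →
  ∀ Q : Om e → Prop, (∀ ω ω' : Om e, (∀ s, IsEdge s → ω s = ω' s) → (Q ω ↔ Q ω')) →
  (∀ᵐ ω ∂(PM e F), Q ω) → ∀ᵐ ω ∂P, Q (fun s => t s ω)

end Pool.Agent.J6H99.NC
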