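import Pool.Agent.J6H99.NC.Cor

/-!
# First-passage percolation: straight walks, quantiles
-/

set_option autoImplicit false

open MeasureTheory ProbabilityTheory Filter Topology
open scoped ENNReal

namespace Pool.Agent.J6H99.NC

variable {e : ℕ}

/-- a dimensional constant -/
noncomputable def cE (e : ℕ) : ℝ := 7 * ((e : ℝ) + 2)

lemma cE_pos (e : ℕ) : 0 < cE e := by unfold cE; positivity

lemma ten_le_cE (e : ℕ) : 10 ≤ cE e := by
  unfold cE
  have : (0 : ℝ) ≤ e := Nat.cast_nonneg e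
  linarith

/-- a short walk stays in a ball -/
lemma Ev_ball (q : Par) (ω : Om e) {x y : V e} {R : Set (V e)}
    (h : ∀ z, n1 (z - x) ≤ n1 (y - x) → z ∈ R) : ω ∈ Ev q (EIn R) x y (q.b * n1 (y - x)) := by
  obtain ⟨p, hp⟩ := exists_walk_len x y
  refine ⟨p, edges_EIn fun v hv => h v ?_, ?_⟩
  · rw [← hp]; exact n1_le_of_mem p hv
  · have := cost_le q ω p
    have h2 : (p.length : ℝ) = (n1 (y - x) : ℝ) := by exact_mod_cast hp
    rw [h2] at this
    exact this

lemma n1_le_of_nr {x y : V e} {z w : E e} {r s : ℝ} (hx : nr (vc x - z) ≤ r)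
    (hy : nr (vc y - w) ≤ s) : (n1 (y - x) : ℝ) ≤ nr (w - z) + r + s := by
  rw [← nr_vc, vc_sub]
  have h3 : vc y - vc x = (vc y - w) + ((w - z) + (z - vc x)) := by abel
  rw [h3]
  have h4 := nr_add_le (vc y - w) ((w - z) + (z - vc x))
  have h5 := nr_add_le (w - z) (z - vc x)
  rw [nr_sub_comm z] at h5
  linarith

/-- a walk along a chain of points -/
lemma Ev_chain (q : Par) (ω : Om e) {R : Set (V e)} (p : ℕ → V e) (m : ℝ) :
    ∀ n : ℕ, (∀ j, j < n → (n1 (p (j + 1) - p j) : ℝ) ≤ m) →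
    (∀ j, j < n → ∀ z, (n1 (z - p j) : ℝ) ≤ m → z ∈ R) →
    ω ∈ Ev q (EIn R) (p 0) (p n) (q.b * (n * m)) := by
  intro n
  induction n with
  | zero =>
    intro _ _
    exact ⟨SimpleGraph.Walk.nil, Uses.nil _ _, by rw [cost_nil]; simp⟩
  | succ n ih =>
    intro h1 h2
    have h3 := ih (fun j hj => h1 j (by omega)) (fun j hj => h2 j (by omega))
    have h4 : ω ∈ Ev q (EIn R) (p n) (p (n + 1)) (q.b * n1 (p (n + 1) - p n)) := by
      refine Ev_ball q ω fun z hz => h2 n (by omega) z ?_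
      have : (n1 (z - p n) : ℝ) ≤ n1 (p (n + 1) - p n) := by exact_mod_cast hz
      exact this.trans (h1 n (by omega))
    refine Ev_mono q _ _ _ ?_ (Ev_trans q h3 h4)
    have := mul_le_mul_of_nonneg_left (h1 n (by omega)) q.hb.le
    push_cast
    linarith

/-- **Walks near a segment.** `a`, `b` real vectors, `x`, `y` lattice points at distance at most `r`
from `a` resp. `b`: some walk from `x` to `y` of cost at most `q.b * cE e * (|b - a| + r + 1)` stays
at distance at most `2 r + cE e` from the segment. -/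
lemma Ev_seg (q : Par) (ω : Om e) {a b : E e} {x y : V e} {r : ℝ} (hr : 0 ≤ r)
    (hx : nr (vc x - a) ≤ r) (hy : nr (vc y - b) ≤ r) {R : Set (V e)}
    (hR : ∀ z : V e, (∃ t : ℝ, 0 ≤ t ∧ t ≤ 1 ∧ nr (vc z - (a + t • (b - a))) ≤ 2 * r + cE e) →
      z ∈ R) :
    ω ∈ Ev q (EIn R) x y (q.b * (cE e * (nr (b - a) + r + 1))) := by
  have he : (0 : ℝ) ≤ e := Nat.cast_nonneg e
  set N : ℕ := ⌈nr (b - a)⌉₊ + 1 with hN
  have hN1 : (1 : ℝ) ≤ N := by rw [hN]; push_cast; linarith [Nat.cast_nonneg (α := ℝ) ⌈nr (b - a)⌉₊]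
  have hN0 : (0 : ℝ) < N := by linarith
  have hN2 : nr (b - a) ≤ N := by
    rw [hN]; push_cast
    have := Nat.le_ceil (nr (b - a))
    linarith
  have hN3 : (N : ℝ) ≤ nr (b - a) + 2 := by
    rw [hN]; push_cast
    have := Nat.ceil_lt_add_one (nr_nonneg (b - a))
    linarith
  set P : ℕ → E e := fun j => a + ((j : ℝ) / N) • (b - a) with hP
  set p : ℕ → V e := fun j => rnd (P j) with hp
  have hpP : ∀ j, nr (vc (p j) - P j) ≤ (e : ℝ) + 2 := fun j => nr_rnd_sub (P j)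
  have hstep : ∀ j, nr (P (j + 1) - P j) ≤ 1 := by
    intro j
    have : P (j + 1) - P j = (1 / (N : ℝ)) • (b - a) := by
      simp only [hP]
      push_cast
      rw [add_sub_add_left_eq_sub, ← sub_smul]
      congr 1
      field_simp
      ring
    rw [this, nr_smul, abs_of_pos (by positivity), one_div, inv_mul_le_iff₀ hN0]
    linarith
  -- the middle part
  have h1 : ω ∈ Ev q (EIn R) (p 0) (p N) (q.b * (N * (1 + 2 * ((e : ℝ) + 2)))) := by
    refine Ev_chain q ω p _ N (fun j _ => ?_) (fun j hj z hz => hR z ?_)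
    · have := n1_rnd_sub_le (P (j + 1)) (P j)
      have h := hstep j
      simp only [hp]
      linarith
    · refine ⟨(j : ℝ) / N, by positivity, ?_, ?_⟩
      · rw [div_le_one hN0]; exact_mod_cast hj.le
      · have h2 : nr (vc z - P j) ≤ (1 + 2 * ((e : ℝ) + 2)) + ((e : ℝ) + 2) := by
          have h3 := nr_tri (vc z) (vc (p j)) (P j)
          rw [← vc_sub, nr_vc] at h3
          have := hpP j
          linarith
        refine h2.trans ?_
        unfold cE
        linarith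
  have hP0 : P 0 = a := by simp [hP]
  have hPN : P N = b := by
    simp only [hP]
    rw [div_self hN0.ne', one_smul]; abel
  -- the first part
  have h2 : ω ∈ Ev q (EIn R) x (p 0) (q.b * (r + ((e : ℝ) + 2))) := by
    have hd : (n1 (p 0 - x) : ℝ) ≤ r + ((e : ℝ) + 2) := by
      have h3 := n1_le_of_nr hx (hpP 0)
      rw [hP0, sub_self, nr_zero] at h3
      linarith
    refine Ev_mono q _ _ _ (mul_le_mul_of_nonneg_left hd q.hb.le) (Ev_ball q ω fun z hz => ?_)
    refine hR z ⟨0, le_rfl, zero_le_one, ?_⟩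
    rw [zero_smul, add_zero]
    have h3 : (n1 (z - x) : ℝ) ≤ n1 (p 0 - x) := by exact_mod_cast hz
    have h4 := nr_tri (vc z) (vc x) a
    rw [← vc_sub, nr_vc] at h4
    unfold cE
    linarith
  have h3 : ω ∈ Ev q (EIn R) y (p N) (q.b * (r + ((e : ℝ) + 2))) := by
    have hd : (n1 (p N - y) : ℝ) ≤ r + ((e : ℝ) + 2) := by
      have h3 := n1_le_of_nr hy (hpP N)
      rw [hPN, sub_self, nr_zero] at h3
      linarith
    refine Ev_mono q _ _ _ (mul_le_mul_of_nonneg_left hd q.hb.le) (Ev_ball q ω fun z hz => ?_)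
    refine hR z ⟨1, zero_le_one, le_rfl, ?_⟩
    rw [one_smul, add_sub_cancel]
    have h3 : (n1 (z - y) : ℝ) ≤ n1 (p N - y) := by exact_mod_cast hz
    have h4 := nr_tri (vc z) (vc y) b
    rw [← vc_sub, nr_vc] at h4
    unfold cE
    linarith
  refine Ev_mono q _ _ _ ?_ (Ev_trans q h2 (Ev_trans q h1 (Ev_symm q h3)))
  rw [← mul_add, ← mul_add]
  refine mul_le_mul_of_nonneg_left ?_ q.hb.le
  unfold cE
  have h5 : (N : ℝ) * (1 + 2 * ((e : ℝ) + 2)) ≤ (nr (b - a) + 2) * (1 + 2 * ((e : ℝ) + 2)) :=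
    mul_le_mul_of_nonneg_right hN3 (by positivity)
  have h6 := mul_nonneg (nr_nonneg (b - a)) he
  have h7 := mul_nonneg hr he
  nlinarith [nr_nonneg (b - a)]

section

variable {q : Par} {F : Measure ℝ} [IsProbabilityMeasure F] {ι : Type} [Fintype ι]

/-- wide tubes can be crossed -/
lemma K_univ (D : Cor e q F ι) (l : ℕ) : ∃ w : ℕ, K D l w = Set.univ := by
  obtain ⟨w, hw⟩ := exists_nat_ge (q.b * (n1 (rnd ((l : ℝ) • D.v)) : ℝ) + l +
    (nr D.chi + ∑ i, nr (D.f i)) * n1 (rnd ((l : ℝ) • D.v)) +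
    nr D.chi * n1 (rnd ((l : ℝ) • D.v)))
  refine ⟨w, Set.eq_univ_of_forall fun ω => ?_⟩
  set y := rnd ((l : ℝ) • D.v) with hy
  have h0 : (0 : ℝ) ≤ n1 y := by exact_mod_cast n1_nonneg y
  have hb := q.hb.le
  have hc := nr_nonneg D.chi
  have hs : 0 ≤ ∑ i, nr (D.f i) := Finset.sum_nonneg fun i _ => nr_nonneg _
  have hl : (0 : ℝ) ≤ l := Nat.cast_nonneg l
  have p1 : 0 ≤ q.b * (n1 y : ℝ) := mul_nonneg hb h0
  have p2 : 0 ≤ nr D.chi * (n1 y : ℝ) := mul_nonneg hc h0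
  have p3 : 0 ≤ (∑ i, nr (D.f i)) * (n1 y : ℝ) := mul_nonneg hs h0
  have h1 : ω ∈ Ev q (EIn (Tube D l w)) 0 y (q.b * n1 (y - 0)) := by
    refine Ev_ball q ω fun z hz => ?_
    rw [sub_zero, sub_zero] at hz
    have hz' : (n1 z : ℝ) ≤ n1 y := by exact_mod_cast hz
    have h2 := abs_le.1 (abs_lf_le D.chi z)
    have h3 := mul_le_mul_of_nonneg_left hz' hc
    have hw' : q.b * (n1 y : ℝ) + l + (nr D.chi * n1 y + (∑ i, nr (D.f i)) * n1 y) +
        nr D.chi * n1 y ≤ w := by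
      rw [← add_mul]; exact hw
    refine ⟨by linarith, by linarith, fun i => ?_⟩
    have h4 := abs_le.1 (abs_lf_le (D.f i) z)
    have h5 : nr (D.f i) ≤ ∑ j, nr (D.f j) :=
      Finset.single_le_sum (f := fun j => nr (D.f j)) (fun j _ => nr_nonneg _)
        (Finset.mem_univ i)
    have h6 : nr (D.f i) * (n1 z : ℝ) ≤ (∑ j, nr (D.f j)) * n1 y :=
      mul_le_mul h5 hz' (by exact_mod_cast n1_nonneg z) hs
    linarith
  refine Ev_mono q _ _ _ ?_ h1
  rw [sub_zero]
  have hw' : q.b * (n1 y : ℝ) + l + (nr D.chi * n1 y + (∑ i, nr (D.f i)) * n1 y) +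
      nr D.chi * n1 y ≤ w := by
    rw [← add_mul]; exact hw
  linarith

lemma kk_spec (D : Cor e q F ι) {ε : ℝ} (hε : ε ≤ 1) (l : ℕ) :
    ENNReal.ofReal ε ≤ PM e F (K D l (kk D ε l)) := by
  have h : (kk D ε l) ∈ {w : ℕ | ENNReal.ofReal ε ≤ PM e F (K D l w)} := by
    refine Nat.sInf_mem ?_
    obtain ⟨w, hw⟩ := K_univ D l
    refine ⟨w, ?_⟩
    show ENNReal.ofReal ε ≤ PM e F (K D l w)
    rw [hw, measure_univ]
    exact ENNReal.ofReal_le_one.2 hε
  exact h

lemma kk_le (D : Cor e q F ι) {ε : ℝ} {l w : ℕ} (h : ENNReal.ofReal ε ≤ PM e F (K D l w)) :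
    kk D ε l ≤ w := Nat.sInf_le h

lemma lt_kk (D : Cor e q F ι) {ε : ℝ} {l w : ℕ} (h : w < kk D ε l) :
    PM e F (K D l w) < ENNReal.ofReal ε := by
  by_contra h'
  push Not at h'
  exact absurd (kk_le D h') (by omega)

lemma kk_anti (D : Cor e q F ι) {ε ε' : ℝ} (h : ε ≤ ε') (hε : ε' ≤ 1) (l : ℕ) :
    kk D ε l ≤ kk D ε' l :=
  kk_le D ((ENNReal.ofReal_le_ofReal h).trans (kk_spec D hε l))

end

end Pool.Agent.J6H99.NC
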